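import Pool.Agent.Work.MP_585ca9_lc.Hasse

/-!
# Sanity check: every system has a Hasse diagram in the sense of `IsHasse`
-/

set_option autoImplicit false

namespace Pool.Agent.MP585ca9

open Set

theorem tight_sublist {m d : ℕ} (A : Matrix (Fin m) (Fin d) ℚ) (b : Fin m → ℚ)
    (F : Set (Fin d → ℝ)) : (tight A b F).Sublist ((List.finRange m).map Fin.val) := by
  classical
  unfold tight
  exact List.filter_sublist.map _

theorem bddFaces_finite {m d : ℕ} (A : Matrix (Fin m) (Fin d) ℚ) (b : Fin m → ℚ) :
    (bddFaces (polyhedron A b)).Finite := by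
  refine Set.Finite.of_finite_image ?_ (tight_injOn A b)
  refine Set.Finite.subset (List.finite_toSet ((List.finRange m).map Fin.val).sublists) ?_
  rintro _ ⟨F, -, rfl⟩
  exact List.mem_sublists.2 (tight_sublist A b F)

/-- Every system has a Hasse diagram, so `IsHasse` is never vacuous. -/
theorem exists_isHasse {m d : ℕ} (A : Matrix (Fin m) (Fin d) ℚ) (b : Fin m → ℚ) :
    ∃ faces covers, IsHasse A b faces covers := by
  classical
  have hfin : (tight A b '' bddFaces (polyhedron A b)).Finite := (bddFaces_finite A b).image _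
  set faces : List (List ℕ) := hfin.toFinset.toList with hfaces
  set S : Finset (ℕ × ℕ) := ((Finset.range faces.length) ×ˢ (Finset.range faces.length)).filter
    (fun p => ∃ F G : BoundedFace (polyhedron A b), F ⋖ G ∧
      faces[p.1]? = some (tight A b F.1) ∧ faces[p.2]? = some (tight A b G.1)) with hS
  refine ⟨faces, S.toList, ⟨Finset.nodup_toList _, fun L => ?_, Finset.nodup_toList _,
    fun i j => ?_⟩⟩
  · rw [hfaces, Finset.mem_toList, Set.Finite.mem_toFinset]
    constructor
    · rintro ⟨F, hF, rfl⟩; exact ⟨⟨F, hF⟩, rfl⟩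
    · rintro ⟨F, rfl⟩; exact ⟨F.1, F.2, rfl⟩
  · rw [Finset.mem_toList, hS, Finset.mem_filter]
    constructor
    · exact fun h => h.2
    · rintro ⟨F, G, h1, h2, h3⟩
      refine ⟨?_, F, G, h1, h2, h3⟩
      rw [Finset.mem_product, Finset.mem_range, Finset.mem_range]
      exact ⟨(List.getElem?_eq_some_iff.1 h2).1, (List.getElem?_eq_some_iff.1 h3).1⟩

end Pool.Agent.MP585ca9
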