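import Mathlib

/-!
# Definitions for MP_585ca9_lc: polyhedra, bounded faces, Hasse diagrams, bit encodings
-/

set_option autoImplicit false

namespace Pool.Agent.MP585ca9

open Turing

/-- The polyhedron `{x ∈ ℝ^d : A x ≤ b}` with rational data. -/
def polyhedron {m d : ℕ} (A : Matrix (Fin m) (Fin d) ℚ) (b : Fin m → ℚ) : Set (Fin d → ℝ) :=
  {x | ∀ i, ∑ j, (A i j : ℝ) * x j ≤ (b i : ℝ)}

/-- The bounded subcomplex of `P`: all nonempty bounded faces, ordered by inclusion. (The nonempty
faces of a polyhedron are its nonempty exposed subsets, `P` itself included.) -/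
abbrev BoundedFace {d : ℕ} (P : Set (Fin d → ℝ)) : Type :=
  {F : Set (Fin d → ℝ) // F.Nonempty ∧ IsExposed ℝ P F ∧ Bornology.IsBounded F}

open Classical in
/-- The increasing list of the indices of the inequalities which are tight on all of `F`. -/
noncomputable def tight {m d : ℕ} (A : Matrix (Fin m) (Fin d) ℚ) (b : Fin m → ℚ)
    (F : Set (Fin d → ℝ)) : List ℕ :=
  ((List.finRange m).filter (fun i => ∀ x ∈ F, ∑ j, (A i j : ℝ) * x j = (b i : ℝ))).map Fin.val

/-- The pair `(faces, covers)` is the Hasse diagram of the bounded subcomplex of `{A x ≤ b}`:
`faces` lists, without repetition, the sets of tight inequalities of all nonempty bounded faces,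
and `covers` lists, without repetition, the pairs of positions in `faces` of all pairs `F ⋖ G` of
bounded faces such that `G` covers `F`. -/
structure IsHasse {m d : ℕ} (A : Matrix (Fin m) (Fin d) ℚ) (b : Fin m → ℚ)
    (faces : List (List ℕ)) (covers : List (ℕ × ℕ)) : Prop where
  faces_nodup : faces.Nodup
  mem_faces : ∀ L, L ∈ faces ↔ ∃ F : BoundedFace (polyhedron A b), tight A b F.1 = L
  covers_nodup : covers.Nodup
  mem_covers : ∀ i j, (i, j) ∈ covers ↔ ∃ F G : BoundedFace (polyhedron A b), F ⋖ G ∧
    faces[i]? = some (tight A b F.1) ∧ faces[j]? = some (tight A b G.1)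

/-! ### Encodings as bit strings -/

/-- A bit. -/
def encBit : Bool → List Bool
  | false => [false]
  | true => [true, false, false]

/-- A pair. -/
def encPair {α β : Type} (e : α → List Bool) (e' : β → List Bool) (p : α × β) : List Bool :=
  true :: (e p.1 ++ e' p.2)

/-- A list: `true` before every item and `false` at the end. -/
def encList {α : Type} (e : α → List Bool) : List α → List Bool
  | [] => [false]
  | a :: l => true :: (e a ++ encList e l)

/-- A natural number in binary. -/
def encNat (n : ℕ) : List Bool := encList encBit n.bits

/-- An integer in binary, with sign bit. -/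
def encInt (z : ℤ) : List Bool := encPair encBit encNat (decide (z < 0), z.natAbs)

/-- A rational number: numerator and denominator in binary. -/
def encRat (q : ℚ) : List Bool := encPair encInt encNat (q.num, q.den)

/-- The input `A x ≤ b`: the dimension and the list of rows of `(A | b)`. -/
def encSystem {m d : ℕ} (A : Matrix (Fin m) (Fin d) ℚ) (b : Fin m → ℚ) : List Bool :=
  encPair encNat (encList (encPair (encList encRat) encRat))
    (d, List.ofFn (fun i => (List.ofFn (A i), b i)))

/-- The output: a Hasse diagram. -/
def encHasse (faces : List (List ℕ)) (covers : List (ℕ × ℕ)) : List Bool :=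
  encPair (encList (encList encNat)) (encList (encPair encNat encNat)) (faces, covers)

/-- A natural number in unary. -/
def encUnary : ℕ → List Bool
  | 0 => [false]
  | n + 1 => true :: false :: encUnary n

open Classical in
/-- An instance `(G, k)` of the clique problem: `k` in unary and the adjacency matrix. -/
noncomputable def encClique {n : ℕ} (G : SimpleGraph (Fin n)) (k : ℕ) : List Bool :=
  encPair encUnary (encList (encList encBit))
    (k, List.ofFn (fun i => List.ofFn (fun j => decide (G.Adj i j))))

/-! ### Machines -/

/-- The machine `M` on input `x` outputs `y` in at most `t` steps. -/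
def Outputs (M : TM2ComputableAux Bool Bool) (x y : List Bool) (t : ℕ) : Prop :=
  Nonempty (TM2OutputsInTime M.tm (x.map M.inputAlphabet.invFun)
    (some (y.map M.outputAlphabet.invFun)) t)

/-- There is an algorithm which, given the inequalities of an arbitrary unbounded pointed
polyhedron, outputs the Hasse diagram of its bounded subcomplex in polynomial total time. -/
def HasPolyTotalTimeAlgorithm : Prop :=
  ∃ (M : TM2ComputableAux Bool Bool) (p : Polynomial ℕ),
    ∀ (m d : ℕ) (A : Matrix (Fin m) (Fin d) ℚ) (b : Fin m → ℚ),
      (Set.extremePoints ℝ (polyhedron A b)).Nonempty → ¬ Bornology.IsBounded (polyhedron A b) →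
      ∃ faces covers, IsHasse A b faces covers ∧
        Outputs M (encSystem A b) (encHasse faces covers)
          (p.eval ((encSystem A b).length + (encHasse faces covers).length))

open Classical in
/-- The clique problem, parametrised by the size `k` of the clique, is decided in time
`2^O(k) * n^O(1)`; in particular it is fixed-parameter tractable. -/
def CliqueFPT : Prop :=
  ∃ (M : TM2ComputableAux Bool Bool) (c : ℕ), ∀ (n k : ℕ) (G : SimpleGraph (Fin n)),
    Outputs M (encClique G k) (encBit (decide (∃ s : Finset (Fin n), G.IsNClique k s)))
      (c * 2 ^ (c * k) * (n + 1) ^ c)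

end Pool.Agent.MP585ca9
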