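import Pool.Agent.Work.MP_585ca9_lc.Colour
import Pool.Agent.Work.MP_585ca9_lc.Defs

/-!
# The system of inequalities of a multicoloured graph
-/

set_option autoImplicit false

namespace Pool.Agent.MP585ca9

open Set

section rows
variable {X Y : Type}

/-- A row with at most three nonzero entries. -/
def tri (z : X) (a1 : ℕ) (x1 : X) (a2 : ℕ) (x2 : X) (a3 : ℕ) (x3 : X) (t : ℕ) : X :=
  if t = a1 then x1 else if t = a2 then x2 else if t = a3 then x3 else z

theorem map_tri (f : X → Y) (z : X) (a1 : ℕ) (x1 : X) (a2 : ℕ) (x2 : X) (a3 : ℕ) (x3 : X)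
    (t : ℕ) : f (tri z a1 x1 a2 x2 a3 x3 t) = tri (f z) a1 (f x1) a2 (f x2) a3 (f x3) t := by
  unfold tri; split_ifs <;> rfl

/-- All tuples `(i, j, l, c, c', c'')`. -/
def tuples (K N : ℕ) : List (ℕ × ℕ × ℕ × ℕ × ℕ × ℕ) :=
  (List.range K).product ((List.range K).product ((List.range K).product
    ((List.range N).product ((List.range N).product (List.range N)))))

theorem mem_tuples {K N : ℕ} {t : ℕ × ℕ × ℕ × ℕ × ℕ × ℕ} : t ∈ tuples K N ↔
    t.1 < K ∧ t.2.1 < K ∧ t.2.2.1 < K ∧ t.2.2.2.1 < N ∧ t.2.2.2.2.1 < N ∧ t.2.2.2.2.2 < N := by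
  obtain ⟨i, j, l, c, c', c''⟩ := t
  simp [tuples, List.pair_mem_product]

/-- The rows of the system; `z, p, m, q` stand for the numbers `0, 1, -1, K - 2`. -/
def rowsG (z p m q : X) (K N : ℕ) (bad : ℕ → ℕ → ℕ → ℕ → Bool) : List (List X × X) :=
  ((List.range (K + K * N)).map (fun t => if t < K then p else z), p) ::
  ((List.range (K + K * N)).map (fun t => if t < K then m else z), m) ::
  (((List.range K).product (List.range N)).map (fun t =>
    ((List.range (K + K * N)).map (tri z (K + (t.2 + N * t.1)) p t.1 m t.1 m), z)) ++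
  ((tuples K N).filter (fun t => (decide (t.1 ≠ t.2.1) && (decide (t.2.2.1 ≠ t.1) &&
    decide (t.2.2.1 ≠ t.2.1))) && bad t.1 t.2.2.2.1 t.2.1 t.2.2.2.2.1)).map (fun t =>
    ((List.range (K + K * N)).map (tri z (K + (t.2.2.2.1 + N * t.1)) p
      (K + (t.2.2.2.2.1 + N * t.2.1)) p (K + (t.2.2.2.2.2 + N * t.2.2.1)) q), z)))

theorem map_rowsG (f : X → Y) (z p m q : X) (K N : ℕ) (bad : ℕ → ℕ → ℕ → ℕ → Bool) :
    (rowsG z p m q K N bad).map (fun r => (r.1.map f, f r.2)) =
      rowsG (f z) (f p) (f m) (f q) K N bad := by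
  unfold rowsG
  simp only [List.map_cons, List.map_append, List.map_map]
  congr 1
  · simp only [Prod.mk.injEq, and_true]
    exact List.map_congr_left (fun t _ => by simp only [Function.comp]; split_ifs <;> rfl)
  · congr 1
    · simp only [Prod.mk.injEq, and_true]
      exact List.map_congr_left (fun t _ => by simp only [Function.comp]; split_ifs <;> rfl)
    · congr 1
      · refine List.map_congr_left (fun t _ => ?_)
        simp only [Function.comp, Prod.mk.injEq, and_true, List.map_map]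
        exact List.map_congr_left (fun s _ => map_tri _ _ _ _ _ _ _ _ _)
      · refine List.map_congr_left (fun t _ => ?_)
        simp only [Function.comp, Prod.mk.injEq, and_true, List.map_map]
        exact List.map_congr_left (fun s _ => map_tri _ _ _ _ _ _ _ _ _)

theorem length_of_mem_rowsG {z p m q : X} {K N : ℕ} {bad : ℕ → ℕ → ℕ → ℕ → Bool}
    {r : List X × X} (h : r ∈ rowsG z p m q K N bad) : r.1.length = K + K * N := by
  unfold rowsG at h
  simp only [List.mem_cons, List.mem_append, List.mem_map] at h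
  rcases h with rfl | rfl | ⟨t, -, rfl⟩ | ⟨t, -, rfl⟩ <;> simp

end rows

/-- Sum of a row with three nonzero entries. -/
theorem sum_tri {d : ℕ} (x : Fin d → ℝ) (a1 a2 a3 : Fin d) (x1 x2 x3 : ℝ)
    (h12 : a1 ≠ a2) (h13 : a1 ≠ a3) (h23 : a2 ≠ a3) :
    ∑ j : Fin d, tri (0 : ℝ) a1 x1 a2 x2 a3 x3 j * x j = x1 * x a1 + x2 * x a2 + x3 * x a3 := by
  have h : ∀ j : Fin d, tri (0 : ℝ) a1 x1 a2 x2 a3 x3 j * x j =
      (if j = a1 then x1 * x a1 else 0) + (if j = a2 then x2 * x a2 else 0) +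
        (if j = a3 then x3 * x a3 else 0) := by
    intro j
    unfold tri
    simp only [Fin.val_inj]
    by_cases e1 : j = a1
    · subst e1
      simp [h12, h13]
    · by_cases e2 : j = a2
      · subst e2
        simp [e1, h23]
      · by_cases e3 : j = a3
        · subst e3
          simp [e1, e2]
        · simp [e1, e2, e3]
  rw [Finset.sum_congr rfl (fun j _ => h j), Finset.sum_add_distrib, Finset.sum_add_distrib]
  simp

theorem sum_tri2 {d : ℕ} (x : Fin d → ℝ) (a1 a2 : Fin d) (x1 x2 : ℝ) (h12 : a1 ≠ a2) :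
    ∑ j : Fin d, tri (0 : ℝ) a1 x1 a2 x2 a2 x2 j * x j = x1 * x a1 + x2 * x a2 := by
  have h : ∀ j : Fin d, tri (0 : ℝ) a1 x1 a2 x2 a2 x2 j * x j =
      (if j = a1 then x1 * x a1 else 0) + (if j = a2 then x2 * x a2 else 0) := by
    intro j
    unfold tri
    simp only [Fin.val_inj]
    by_cases e1 : j = a1
    · subst e1
      simp [h12]
    · by_cases e2 : j = a2
      · subst e2
        simp [e1]
      · simp [e1, e2]
  rw [Finset.sum_congr rfl (fun j _ => h j), Finset.sum_add_distrib]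
  simp

section link

variable {K N : ℕ}

/-- The coordinates. -/
noncomputable def coord (K N : ℕ) :
    (Fin (K + K * N) → ℝ) ≃ₗ[ℝ] (Fin K → ℝ) × (Fin K → Fin N → ℝ) :=
  ((LinearEquiv.funCongrLeft ℝ ℝ finSumFinEquiv) ≪≫ₗ
    (LinearEquiv.sumArrowLequivProdArrow (Fin K) (Fin (K * N)) ℝ ℝ)) ≪≫ₗ
    LinearEquiv.prodCongr (LinearEquiv.refl ℝ _)
      ((LinearEquiv.funCongrLeft ℝ ℝ finProdFinEquiv) ≪≫ₗ LinearEquiv.curry ℝ ℝ (Fin K) (Fin N))

theorem coord_fst (x : Fin (K + K * N) → ℝ) (i : Fin K) :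
    (coord K N x).1 i = x (Fin.castAdd _ i) := rfl

theorem coord_snd (x : Fin (K + K * N) → ℝ) (i : Fin K) (c : Fin N) :
    (coord K N x).2 i c = x (Fin.natAdd K (finProdFinEquiv (i, c))) := rfl

theorem val_castAdd (i : Fin K) : ((Fin.castAdd (K * N) i : Fin (K + K * N)) : ℕ) = i := rfl

theorem val_natAdd (i : Fin K) (c : Fin N) :
    ((Fin.natAdd K (finProdFinEquiv (i, c)) : Fin (K + K * N)) : ℕ) = K + (c + N * i) := rfl

/-- The inequality of a row. -/
def rowOk {d : ℕ} (r : List ℝ × ℝ) (x : Fin d → ℝ) : Prop :=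
  ∑ j : Fin d, r.1.getD j 0 * x j ≤ r.2

theorem getD_map_range {X : Type} (f : ℕ → X) (d : ℕ) (z : X) (j : Fin d) :
    ((List.range d).map f).getD j z = f j := by
  rw [List.getD_eq_getElem?_getD, List.getElem?_map, List.getElem?_range j.2]
  rfl

theorem rows_iff (bad : ℕ → ℕ → ℕ → ℕ → Bool) (x : Fin (K + K * N) → ℝ) :
    (∀ r ∈ rowsG (0 : ℝ) 1 (-1) ((K : ℝ) - 2) K N bad, rowOk r x) ↔
      InP (coord K N) (fun i c j c' => bad i c j c' = true) x := by
  have hd : ∀ i : Fin K, ∀ j : Fin K, ∀ c : Fin N,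
      (Fin.natAdd K (finProdFinEquiv (j, c)) : Fin (K + K * N)) ≠ Fin.castAdd (K * N) i := by
    intro i j c h
    have := congrArg Fin.val h
    rw [val_castAdd, val_natAdd] at this
    have := i.2
    omega
  have hd' : ∀ i j : Fin K, ∀ c c' : Fin N, i ≠ j →
      (Fin.natAdd K (finProdFinEquiv (i, c)) : Fin (K + K * N)) ≠
        Fin.natAdd K (finProdFinEquiv (j, c')) := by
    intro i j c c' hij h
    have h1 := (Fin.natAdd_injective _ _ h)
    have h2 := finProdFinEquiv.injective h1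
    exact hij (congrArg Prod.fst h2)
  have hs1 : ∀ w : ℝ, ∑ j : Fin (K + K * N),
      ((List.range (K + K * N)).map (fun t => if t < K then w else (0 : ℝ))).getD j 0 * x j =
        w * ∑ i, (coord K N x).1 i := by
    intro w
    rw [Fin.sum_univ_add, Finset.mul_sum]
    have e1 : ∀ i : Fin K, ((List.range (K + K * N)).map
        (fun t => if t < K then w else (0 : ℝ))).getD (Fin.castAdd (K * N) i) 0 *
          x (Fin.castAdd (K * N) i) = w * (coord K N x).1 i := by
      intro i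
      rw [getD_map_range, val_castAdd, if_pos i.2, coord_fst]
    have e2 : ∀ i : Fin (K * N), ((List.range (K + K * N)).map
        (fun t => if t < K then w else (0 : ℝ))).getD (Fin.natAdd K i) 0 *
          x (Fin.natAdd K i) = 0 := by
      intro i
      rw [getD_map_range, if_neg (by simp), zero_mul]
    rw [Finset.sum_congr rfl (fun i _ => e1 i), Finset.sum_congr rfl (fun i _ => e2 i)]
    simp
  have hr1 : rowOk ((List.range (K + K * N)).map (fun t => if t < K then (1 : ℝ) else 0), 1) x ↔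
      ∑ i, (coord K N x).1 i ≤ 1 := by
    unfold rowOk; rw [hs1, one_mul]
  have hr2 : rowOk ((List.range (K + K * N)).map (fun t => if t < K then (-1 : ℝ) else 0), -1) x ↔
      1 ≤ ∑ i, (coord K N x).1 i := by
    unfold rowOk
    rw [hs1]
    constructor <;> intro h <;> linarith
  have hr3 : ∀ (i : Fin K) (c : Fin N), rowOk ((List.range (K + K * N)).map
      (tri (0 : ℝ) (K + (c + N * i)) 1 i (-1) i (-1)), 0) x ↔
        (coord K N x).2 i c ≤ (coord K N x).1 i := by
    intro i c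
    unfold rowOk
    have e := sum_tri2 x (Fin.natAdd K (finProdFinEquiv (i, c))) (Fin.castAdd (K * N) i) 1 (-1)
      (hd i i c)
    rw [val_natAdd, val_castAdd, ← coord_snd x, ← coord_fst x] at e
    simp only [getD_map_range]
    rw [e]
    constructor <;> intro h <;> linarith
  have hr4 : ∀ (i j l : Fin K) (c c' c'' : Fin N), i ≠ j → l ≠ i → l ≠ j →
      (rowOk ((List.range (K + K * N)).map
      (tri (0 : ℝ) (K + (c + N * i)) 1 (K + (c' + N * j)) 1 (K + (c'' + N * l)) ((K : ℝ) - 2)),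
        0) x ↔ (coord K N x).2 i c + (coord K N x).2 j c' +
          ((K : ℝ) - 2) * (coord K N x).2 l c'' ≤ 0) := by
    intro i j l c c' c'' hij hli hlj
    unfold rowOk
    have e := sum_tri x (Fin.natAdd K (finProdFinEquiv (i, c)))
      (Fin.natAdd K (finProdFinEquiv (j, c'))) (Fin.natAdd K (finProdFinEquiv (l, c''))) 1 1
      ((K : ℝ) - 2) (hd' _ _ _ _ hij) (hd' _ _ _ _ hli.symm) (hd' _ _ _ _ hlj.symm)
    rw [val_natAdd, val_natAdd, val_natAdd, ← coord_snd x, ← coord_snd x, ← coord_snd x] at e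
    simp only [getD_map_range]
    rw [e, one_mul, one_mul]
  constructor
  · intro h
    unfold rowsG at h
    simp only [List.mem_cons, List.mem_append, List.mem_map, List.mem_filter] at h
    refine ⟨le_antisymm (hr1.1 (h _ (Or.inl rfl))) (hr2.1 (h _ (Or.inr (Or.inl rfl)))),
      fun i c => (hr3 i c).1 (h _ (Or.inr (Or.inr (Or.inl ⟨(i, c), ?_, rfl⟩)))),
      fun i j l hij hli hlj c c' c'' hb => ?_⟩
    · simp [List.pair_mem_product]
    · rw [Fintype.card_fin]
      refine (hr4 i j l c c' c'' hij hli hlj).1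
        (h _ (Or.inr (Or.inr (Or.inr ⟨(i, j, l, c, c', c''), ⟨?_, ?_⟩, rfl⟩))))
      · rw [mem_tuples]
        exact ⟨i.2, j.2, l.2, c.2, c'.2, c''.2⟩
      · simp only [Bool.and_eq_true, decide_eq_true_eq]
        refine ⟨⟨?_, ?_, ?_⟩, hb⟩
        · exact fun e => hij (Fin.ext e)
        · exact fun e => hli (Fin.ext e)
        · exact fun e => hlj (Fin.ext e)
  · rintro ⟨h1, h2, h3⟩ r hr
    unfold rowsG at hr
    simp only [List.mem_cons, List.mem_append, List.mem_map, List.mem_filter] at hr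
    rcases hr with rfl | rfl | ⟨t, ht, rfl⟩ | ⟨t, ⟨ht, ht'⟩, rfl⟩
    · exact hr1.2 h1.le
    · exact hr2.2 h1.ge
    · obtain ⟨i, c⟩ := t
      simp only [List.pair_mem_product, List.mem_range] at ht
      exact (hr3 ⟨i, ht.1⟩ ⟨c, ht.2⟩).2 (h2 _ _)
    · obtain ⟨i, j, l, c, c', c''⟩ := t
      rw [mem_tuples] at ht
      obtain ⟨hi, hj, hl, hc, hc', hc''⟩ := ht
      simp only [Bool.and_eq_true, decide_eq_true_eq] at ht'
      obtain ⟨⟨hij, hli, hlj⟩, hb⟩ := ht'
      have e1 : (⟨i, hi⟩ : Fin K) ≠ ⟨j, hj⟩ := fun e => hij (congrArg Fin.val e)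
      have e2 : (⟨l, hl⟩ : Fin K) ≠ ⟨i, hi⟩ := fun e => hli (congrArg Fin.val e)
      have e3 : (⟨l, hl⟩ : Fin K) ≠ ⟨j, hj⟩ := fun e => hlj (congrArg Fin.val e)
      refine (hr4 ⟨i, hi⟩ ⟨j, hj⟩ ⟨l, hl⟩ ⟨c, hc⟩ ⟨c', hc'⟩ ⟨c'', hc''⟩ e1 e2 e3).2 ?_
      have := h3 ⟨i, hi⟩ ⟨j, hj⟩ ⟨l, hl⟩ e1 e2 e3 ⟨c, hc⟩ ⟨c', hc'⟩ ⟨c'', hc''⟩ hb
      rwa [Fintype.card_fin] at this

end link

end Pool.Agent.MP585ca9
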