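import Pool.Agent.Work.MP_585ca9_lc.Faces

/-!
# The polyhedron of a multicoloured graph and its bounded faces
-/

set_option autoImplicit false

namespace Pool.Agent.MP585ca9

open Set

section general
variable {E : Type} [NormedAddCommGroup E] [NormedSpace ℝ E]

theorem eq_zero_of_ray {Q : Set E} (hQ : Bornology.IsBounded Q) {x r : E}
    (h : ∀ t : ℝ, 0 ≤ t → x + t • r ∈ Q) : r = 0 := by
  by_contra hr
  obtain ⟨C, hC⟩ := hQ.exists_norm_le
  have hr' : 0 < ‖r‖ := norm_pos_iff.2 hr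
  have h1 : 0 ≤ (C + ‖x‖ + 1) / ‖r‖ := by
    have : 0 ≤ C := (norm_nonneg _).trans (hC _ (h 0 (le_refl _)))
    positivity
  have h2 := hC _ (h _ h1)
  have h3 : ‖((C + ‖x‖ + 1) / ‖r‖) • r‖ = C + ‖x‖ + 1 := by
    rw [norm_smul, Real.norm_of_nonneg h1]; field_simp
  have h4 : ‖((C + ‖x‖ + 1) / ‖r‖) • r‖ ≤ ‖x + ((C + ‖x‖ + 1) / ‖r‖) • r‖ + ‖x‖ := by
    have := norm_sub_le (x + ((C + ‖x‖ + 1) / ‖r‖) • r) x
    rwa [add_sub_cancel_left] at this
  linarith

theorem isExposed_of_tight {P : Set E} {κ : Type} [Finite κ] (M : κ → StrongDual ℝ E)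
    (γ : κ → ℝ) (h : ∀ k, ∀ x ∈ P, M k x ≤ γ k)
    (hne : {x | x ∈ P ∧ ∀ k, M k x = γ k}.Nonempty) :
    IsExposed ℝ P {x | x ∈ P ∧ ∀ k, M k x = γ k} := by
  intro _
  cases nonempty_fintype κ
  refine ⟨∑ k, M k, ?_⟩
  have hs : ∀ x, (∑ k, M k) x = ∑ k, M k x := by intro x; simp
  obtain ⟨x0, hx0, hx0'⟩ := hne
  ext x
  constructor
  · rintro ⟨hx, hx'⟩
    refine ⟨hx, fun y hy => ?_⟩
    rw [hs, hs]
    exact Finset.sum_le_sum (fun k _ => (h k y hy).trans (hx' k).ge)
  · rintro ⟨hx, hx'⟩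
    refine ⟨hx, ?_⟩
    have h1 := hx' x0 hx0
    rw [hs, hs] at h1
    have h2 : ∑ k, M k x ≤ ∑ k, γ k := Finset.sum_le_sum (fun k _ => h k x hx)
    have h3 : ∑ k, M k x = ∑ k, γ k :=
      le_antisymm h2 ((Finset.sum_le_sum (fun k _ => (hx0' k).ge)).trans h1)
    have h4 := (Finset.sum_eq_sum_iff_of_le (fun k _ => h k x hx)).1 h3
    exact fun k => h4 k (Finset.mem_univ k)

end general

/-- Choosing two further elements. -/
theorem exists_two_ne {ι : Type} [Fintype ι] (h4 : 4 ≤ Fintype.card ι) (l l' : ι) :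
    ∃ i j, i ≠ j ∧ i ≠ l ∧ i ≠ l' ∧ j ≠ l ∧ j ≠ l' := by
  classical
  have h1 : 1 < ((Finset.univ.erase l).erase l').card := by
    have h2 := Finset.pred_card_le_card_erase (s := (Finset.univ : Finset ι)) (a := l)
    have h3 := Finset.pred_card_le_card_erase (s := (Finset.univ.erase l)) (a := l')
    rw [Finset.card_univ] at h2
    omega
  obtain ⟨i, hi, j, hj, hij⟩ := Finset.one_lt_card.1 h1
  simp only [Finset.mem_erase, Finset.mem_univ, and_true] at hi hj
  exact ⟨i, j, hij, hi.2, hi.1, hj.2, hj.1⟩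

theorem alg_zero {ι V : Type} [Fintype ι] (h4 : 4 ≤ Fintype.card ι) (o : V) (a : ι → V → ℝ)
    (h : ∀ i j l, i ≠ j → l ≠ i → l ≠ j → ∀ c' c'',
      a i o + a j c' + ((Fintype.card ι : ℝ) - 2) * a l c'' = 0) : ∀ i c, a i c = 0 := by
  have hK : (4 : ℝ) ≤ Fintype.card ι := by exact_mod_cast h4
  have h1 : ∀ j c, a j c = a j o := by
    intro j c
    obtain ⟨i, l, hil, hij, -, hlj, -⟩ := exists_two_ne h4 j j
    have e1 := h i j l hij (Ne.symm hil) hlj c o
    have e2 := h i j l hij (Ne.symm hil) hlj o o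
    linarith
  have h2 : ∀ l l', a l o = a l' o := by
    intro l l'
    obtain ⟨i, j, hij, h1, h2, h3, h4'⟩ := exists_two_ne h4 l l'
    have e1 := h i j l hij (Ne.symm h1) (Ne.symm h3) o o
    have e2 := h i j l' hij (Ne.symm h2) (Ne.symm h4') o o
    have e3 : ((Fintype.card ι : ℝ) - 2) * (a l o - a l' o) = 0 := by linarith
    rcases mul_eq_zero.1 e3 with h | h
    · linarith
    · linarith
  intro i c
  obtain ⟨j, l, hjl, hji, -, hli, -⟩ := exists_two_ne h4 i i
  have e := h i j l (Ne.symm hji) hli (Ne.symm hjl) o o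
  rw [h2 j i, h2 l i] at e
  have e' : (Fintype.card ι : ℝ) * a i o = 0 := by linarith
  rcases mul_eq_zero.1 e' with h | h
  · linarith
  · rw [h1, h]

section poly
variable {E : Type} [NormedAddCommGroup E] [NormedSpace ℝ E] [FiniteDimensional ℝ E]
  {ι V : Type} [Fintype ι]
  (φ : E ≃ₗ[ℝ] (ι → ℝ) × (ι → V → ℝ)) (bad : ι → V → ι → V → Prop)

/-- The polyhedron. -/
def InP (x : E) : Prop :=
  ∑ i, (φ x).1 i = 1 ∧ (∀ i c, (φ x).2 i c ≤ (φ x).1 i) ∧
    ∀ i j l, i ≠ j → l ≠ i → l ≠ j → ∀ c c' c'', bad i c j c' →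
      (φ x).2 i c + (φ x).2 j c' + ((Fintype.card ι : ℝ) - 2) * (φ x).2 l c'' ≤ 0

/-- The recession cone. -/
def InRec (x : E) : Prop :=
  ∑ i, (φ x).1 i = 0 ∧ (∀ i c, (φ x).2 i c ≤ (φ x).1 i) ∧
    ∀ i j l, i ≠ j → l ≠ i → l ≠ j → ∀ c c' c'', bad i c j c' →
      (φ x).2 i c + (φ x).2 j c' + ((Fintype.card ι : ℝ) - 2) * (φ x).2 l c'' ≤ 0

/-- The face of the big simplex belonging to a set of colours. -/
def FJ (J : Finset ι) : Set E :=
  {x | (∀ i c, (φ x).2 i c = 0) ∧ (∀ i, 0 ≤ (φ x).1 i) ∧ ∑ i, (φ x).1 i = 1 ∧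
    ∀ i, i ∉ J → (φ x).1 i = 0}

omit [FiniteDimensional ℝ E] in
theorem InP.add_rec {x r : E} (hx : InP φ bad x) (hr : InRec φ bad r) {t : ℝ} (ht : 0 ≤ t) :
    InP φ bad (x + t • r) := by
  obtain ⟨h1, h2, h3⟩ := hx
  obtain ⟨r1, r2, r3⟩ := hr
  unfold InP
  simp only [map_add, map_smul, Prod.fst_add, Prod.snd_add, Prod.smul_fst, Prod.smul_snd,
    Pi.add_apply, Pi.smul_apply, smul_eq_mul]
  refine ⟨?_, fun i c => ?_, fun i j l hij hli hlj c c' c'' hb => ?_⟩
  · rw [Finset.sum_add_distrib, ← Finset.mul_sum, h1, r1]; ring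
  · exact add_le_add (h2 i c) (mul_le_mul_of_nonneg_left (r2 i c) ht)
  · have e1 := h3 i j l hij hli hlj c c' c'' hb
    have e2 := mul_le_mul_of_nonneg_left (r3 i j l hij hli hlj c c' c'' hb) ht
    linarith

omit [FiniteDimensional ℝ E] in
theorem FJ_sub {J : Finset ι} {x : E} (hx : x ∈ FJ φ J) : InP φ bad x := by
  obtain ⟨h1, h2, h3, h4⟩ := hx
  refine ⟨h3, fun i c => by rw [h1]; exact h2 i, fun i j l _ _ _ c c' c'' _ => ?_⟩
  rw [h1, h1, h1]; simp

/-- The vertices of the big simplex. -/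
noncomputable def ev [DecidableEq ι] (i : ι) : E := φ.symm (Pi.single i 1, 0)

omit [FiniteDimensional ℝ E] in
theorem ev_mem [DecidableEq ι] {J : Finset ι} (i : ι) : ev φ i ∈ FJ φ J ↔ i ∈ J := by
  unfold FJ ev
  simp only [Set.mem_ofPred_eq, LinearEquiv.apply_symm_apply]
  constructor
  · rintro ⟨-, -, -, h⟩
    by_contra hi
    have := h i hi
    simp at this
  · intro hi
    refine ⟨fun _ _ => rfl, fun j => ?_, ?_, fun j hj => ?_⟩
    · rw [Pi.single_apply]; split_ifs <;> norm_num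
    · rw [Finset.sum_pi_single']; simp
    · rw [Pi.single_apply, if_neg]
      rintro rfl; exact hj hi

omit [FiniteDimensional ℝ E] in
theorem FJ_injective [DecidableEq ι] : Function.Injective (FJ (E := E) φ) := by
  intro J J' h
  ext i
  rw [← ev_mem φ (J := J), ← ev_mem φ (J := J'), h]

omit [FiniteDimensional ℝ E] in
theorem FJ_bounded [FiniteDimensional ℝ E] (J : Finset ι) [Fintype V] : Bornology.IsBounded (FJ (E := E) φ J) := by
  have hc : Continuous φ.symm.toLinearMap := LinearMap.continuous_of_finiteDimensional _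
  have h1 : IsCompact (Set.Icc (0 : ι → ℝ) 1 ×ˢ ({0} : Set (ι → V → ℝ))) :=
    isCompact_Icc.prod isCompact_singleton
  have h2 := (h1.image hc).isBounded
  refine h2.subset ?_
  rintro x ⟨h1, h2, h3, h4⟩
  refine ⟨φ x, ⟨⟨fun i => h2 i, fun i => ?_⟩, ?_⟩, by simp⟩
  · show (φ x).1 i ≤ 1
    rw [← h3]
    exact Finset.single_le_sum (fun j _ => h2 j) (Finset.mem_univ i)
  · rw [mem_singleton_iff]
    funext i c
    exact h1 i c

/-- The coordinate functionals. -/
noncomputable def fs (i : ι) : StrongDual ℝ E :=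
  LinearMap.toContinuousLinearMap ((LinearMap.proj i ∘ₗ LinearMap.fst ℝ _ _) ∘ₗ φ.toLinearMap)

/-- The coordinate functionals. -/
noncomputable def fy (i : ι) (c : V) : StrongDual ℝ E :=
  LinearMap.toContinuousLinearMap
    ((LinearMap.proj c ∘ₗ LinearMap.proj i ∘ₗ LinearMap.snd ℝ _ _) ∘ₗ φ.toLinearMap)

omit [Fintype ι] in
theorem fs_apply (i : ι) (x : E) : fs φ i x = (φ x).1 i := rfl
omit [Fintype ι] in
theorem fy_apply (i : ι) (c : V) (x : E) : fy φ i c x = (φ x).2 i c := rfl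

variable (h4 : 4 ≤ Fintype.card ι) (o : V)
  (ho : ∀ i j, i ≠ j → ∀ c, bad i o j c)

include h4 ho in
theorem FJ_face [DecidableEq ι] [Fintype V] (J : Finset ι) (hJ : J.Nonempty) :
    (FJ φ J).Nonempty ∧ IsExposed ℝ {x | InP φ bad x} (FJ φ J) ∧
      Bornology.IsBounded (FJ φ J) := by
  obtain ⟨i0, hi0⟩ := hJ
  have hne : (FJ φ J).Nonempty := ⟨ev φ i0, (ev_mem φ i0).2 hi0⟩
  refine ⟨hne, ?_, FJ_bounded φ J⟩
  let κ := {t : (ι × ι × ι) × (V × V × V) // t.1.1 ≠ t.1.2.1 ∧ t.1.2.2 ≠ t.1.1 ∧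
    t.1.2.2 ≠ t.1.2.1 ∧ bad t.1.1 t.2.1 t.1.2.1 t.2.2.1} ⊕ {i : ι // i ∉ J}
  let M : κ → StrongDual ℝ E := fun k => match k with
    | .inl t => fy φ t.1.1.1 t.1.2.1 + fy φ t.1.1.2.1 t.1.2.2.1 +
      ((Fintype.card ι : ℝ) - 2) • fy φ t.1.1.2.2 t.1.2.2.2
    | .inr i => fy φ i.1 o - fs φ i.1
  have hM1 : ∀ t x, M (.inl t) x = (φ x).2 t.1.1.1 t.1.2.1 + (φ x).2 t.1.1.2.1 t.1.2.2.1 +
      ((Fintype.card ι : ℝ) - 2) * (φ x).2 t.1.1.2.2 t.1.2.2.2 := fun t x => rfl
  have hM2 : ∀ i x, M (.inr i) x = (φ x).2 i.1 o - (φ x).1 i.1 := fun t x => rfl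
  have hle : ∀ k, ∀ x ∈ {x | InP φ bad x}, M k x ≤ (fun _ => (0 : ℝ)) k := by
    rintro (t | i) x ⟨h1, h2, h3⟩
    · rw [hM1]
      exact h3 _ _ _ t.2.1 t.2.2.1 t.2.2.2.1 _ _ _ t.2.2.2.2
    · rw [hM2]
      have := h2 i.1 o
      show _ ≤ (0 : ℝ)
      linarith
  have heq : FJ φ J = {x | x ∈ {x | InP φ bad x} ∧ ∀ k, M k x = (fun _ => (0 : ℝ)) k} := by
    ext x
    constructor
    · intro hx
      refine ⟨FJ_sub φ bad hx, ?_⟩
      obtain ⟨h1, h2, h3, h4⟩ := hx
      rintro (t | i)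
      · rw [hM1, h1, h1, h1]; simp
      · rw [hM2, h1, h4 i.1 i.2]; simp
    · rintro ⟨⟨h1, h2, h3⟩, hk⟩
      have hy := alg_zero h4 o (φ x).2 (fun i j l hij hli hlj c' c'' =>
        hk (.inl ⟨((i, j, l), (o, c', c'')), hij, hli, hlj, ho i j hij c'⟩))
      refine ⟨hy, fun i => ?_, h1, fun i hi => ?_⟩
      · have := h2 i o
        rwa [hy] at this
      · have := hk (.inr ⟨i, hi⟩)
        rw [hM2, hy] at this
        simpa using this
  rw [heq]
  refine isExposed_of_tight M _ hle ?_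
  rw [← heq]
  exact hne

omit [FiniteDimensional ℝ E] in
include h4 in
/-- The decomposition when there is no multicoloured clique. -/
theorem decomp [Fintype V] [Nonempty V]
    (hno : ∀ c : ι → V, ∃ i j, i ≠ j ∧ bad i (c i) j (c j)) {x : E} (hx : InP φ bad x) :
    ∃ f r : E, x = f + r ∧ f ∈ FJ φ Finset.univ ∧ InRec φ bad r := by
  classical
  obtain ⟨h1, h2, h3⟩ := hx
  have hK : (4 : ℝ) ≤ Fintype.card ι := by exact_mod_cast h4
  -- maximal values
  have hmax : ∀ i, ∃ c, ∀ c', (φ x).2 i c' ≤ (φ x).2 i c := fun i =>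
    Finite.exists_max (fun c => (φ x).2 i c)
  choose c hc using hmax
  set M : ι → ℝ := fun i => (φ x).2 i (c i) with hM
  have hsum : ∑ i, M i ≤ 0 := by
    obtain ⟨i, j, hij, hb⟩ := hno c
    have h5 : ∀ l ∈ (Finset.univ.erase i).erase j,
        M i + M j + ((Fintype.card ι : ℝ) - 2) * M l ≤ 0 := by
      intro l hl
      simp only [Finset.mem_erase, Finset.mem_univ, and_true] at hl
      exact h3 i j l hij hl.2 hl.1 _ _ _ hb
    have h6 := Finset.sum_nonpos h5
    have hcard : (((Finset.univ.erase i).erase j).card : ℝ) = (Fintype.card ι : ℝ) - 2 := by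
      rw [Finset.card_erase_of_mem (by simp [hij.symm]), Finset.card_erase_of_mem (by simp),
        Finset.card_univ, Nat.sub_sub, Nat.cast_sub (by omega)]
      norm_num
    rw [Finset.sum_add_distrib, Finset.sum_const, nsmul_eq_mul, hcard, ← Finset.mul_sum] at h6
    have h7 : ∑ l, M l = M i + M j + ∑ l ∈ (Finset.univ.erase i).erase j, M l := by
      rw [← Finset.add_sum_erase _ _ (Finset.mem_univ i),
        ← Finset.add_sum_erase (Finset.univ.erase i) _ (by simp [hij.symm] : j ∈ _)]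
      ring
    rw [h7]
    have h8 : ((Fintype.card ι : ℝ) - 2) *
      (M i + M j + ∑ l ∈ (Finset.univ.erase i).erase j, M l) ≤ 0 := by linarith
    by_contra h9
    push Not at h9
    have := mul_pos (by linarith : (0 : ℝ) < (Fintype.card ι : ℝ) - 2) h9
    linarith
  set δ : ι → ℝ := fun i => (φ x).1 i - M i with hδ
  have hδ0 : ∀ i, 0 ≤ δ i := fun i => sub_nonneg.2 (h2 i (c i))
  have hD : 1 ≤ ∑ i, δ i := by
    rw [hδ, Finset.sum_sub_distrib, h1]; linarith
  set D := ∑ i, δ i with hDdef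
  have hD0 : 0 < D := by linarith
  set f : E := φ.symm ((fun i => δ i / D), 0) with hf
  have hφf : φ f = ((fun i => δ i / D), 0) := by rw [hf]; simp
  have hle : ∀ i, δ i / D ≤ δ i := fun i => div_le_self (hδ0 i) hD
  have hsf : ∑ i, δ i / D = 1 := by
    rw [← Finset.sum_div, ← hDdef, div_self hD0.ne']
  refine ⟨f, x - f, by abel, ⟨fun i c => by rw [hφf]; rfl, fun i => by
    rw [hφf]; exact div_nonneg (hδ0 i) hD0.le, by rw [hφf]; exact hsf,
    fun i hi => absurd (Finset.mem_univ i) hi⟩, ?_⟩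
  unfold InRec
  simp only [map_sub, Prod.fst_sub, Prod.snd_sub, Pi.sub_apply, hφf, Pi.zero_apply, sub_zero]
  refine ⟨?_, fun i c' => ?_, h3⟩
  · rw [Finset.sum_sub_distrib, h1, hsf, sub_self]
  · have e1 := hc i c'
    have e2 := hle i
    have e3 : δ i = (φ x).1 i - (φ x).2 i (c i) := rfl
    linarith

omit [FiniteDimensional ℝ E] in
include h4 in
/-- If there is no multicoloured clique then all bounded faces are faces of the simplex. -/
theorem bounded_face_eq [DecidableEq ι] [Fintype V] [Nonempty V]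
    (hno : ∀ c : ι → V, ∃ i j, i ≠ j ∧ bad i (c i) j (c j)) {Q : Set E} (hne : Q.Nonempty)
    (hexp : IsExposed ℝ {x | InP φ bad x} Q) (hbd : Bornology.IsBounded Q) :
    ∃ J : Finset ι, J.Nonempty ∧ Q = FJ φ J := by
  obtain ⟨g, hg⟩ := hexp hne
  have hmem : ∀ x, x ∈ Q ↔ InP φ bad x ∧ ∀ y, InP φ bad y → g y ≤ g x := by
    intro x; rw [hg]; rfl
  have hsub : ∀ x ∈ Q, x ∈ FJ φ Finset.univ := by
    intro x hx
    obtain ⟨hxP, hxm⟩ := (hmem x).1 hx
    obtain ⟨f, r, hfr, hf, hr⟩ := decomp φ bad h4 hno hxP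
    have hfP : InP φ bad f := FJ_sub φ bad hf
    have e1 := hxm f hfP
    have e2 := hxm (x + (1 : ℝ) • r) (hxP.add_rec φ bad hr zero_le_one)
    rw [one_smul, map_add] at e2
    rw [hfr, map_add] at e1
    have e3 : g r = 0 := by linarith
    have hray : ∀ t : ℝ, 0 ≤ t → x + t • r ∈ Q := by
      intro t ht
      rw [hmem]
      refine ⟨hxP.add_rec φ bad hr ht, fun y hy => ?_⟩
      rw [map_add, map_smul, e3, smul_zero, add_zero]
      exact hxm y hy
    have hr0 := eq_zero_of_ray hbd hray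
    rw [hfr, hr0, add_zero]
    exact hf
  have hex : ∀ x, x ∈ FJ φ Finset.univ → g x = ∑ i, (φ x).1 i * g (ev φ i) := by
    intro x hx
    have e : x = ∑ i, (φ x).1 i • ev φ i := by
      apply φ.injective
      rw [map_sum]
      simp only [map_smul, ev, LinearEquiv.apply_symm_apply]
      refine Prod.ext ?_ ?_
      · rw [Prod.fst_sum]
        funext j
        rw [Finset.sum_apply]
        simp only [Prod.smul_fst, Pi.smul_apply, smul_eq_mul, Pi.single_apply, mul_ite, mul_one,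
          mul_zero]
        rw [Finset.sum_ite_eq Finset.univ j]
        simp
      · rw [Prod.snd_sum]
        funext j c
        simp only [Prod.smul_snd, smul_zero, Finset.sum_const_zero, Pi.zero_apply]
        exact hx.1 j c
    conv_lhs => rw [e]
    rw [map_sum]
    simp only [map_smul, smul_eq_mul]
  obtain ⟨x0, hx0⟩ := hne
  obtain ⟨hx0P, hx0m⟩ := (hmem x0).1 hx0
  have hx0F := hsub x0 hx0
  set J : Finset ι := Finset.univ.filter (fun i => g (ev φ i) = g x0) with hJ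
  have hevP : ∀ i, InP φ bad (ev φ i) := fun i =>
    FJ_sub φ bad ((ev_mem φ (J := Finset.univ) i).2 (Finset.mem_univ i))
  have hele : ∀ i, g (ev φ i) ≤ g x0 := fun i => hx0m _ (hevP i)
  have hQ : Q = FJ φ J := by
    ext x
    constructor
    · intro hx
      have hxF := hsub x hx
      obtain ⟨h1, h2, h3, -⟩ := hxF
      refine ⟨h1, h2, h3, fun i hi => ?_⟩
      have e1 : g x = g x0 := le_antisymm (hx0m x ((hmem x).1 hx).1) (((hmem x).1 hx).2 x0 hx0P)
      rw [hex x (hsub x hx)] at e1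
      have e2 : ∑ i, (φ x).1 i * g x0 = g x0 := by rw [← Finset.sum_mul, h3, one_mul]
      have e3 : ∑ i, (φ x).1 i * g (ev φ i) = ∑ i, (φ x).1 i * g x0 := by rw [e1, e2]
      have e4 := (Finset.sum_eq_sum_iff_of_le
        (fun i _ => mul_le_mul_of_nonneg_left (hele i) (h2 i))).1 e3 i (Finset.mem_univ i)
      have hi' : g (ev φ i) ≠ g x0 := by
        intro h; exact hi (by rw [hJ]; simp [h])
      rcases mul_eq_mul_left_iff.1 e4 with h | h
      · exact absurd h hi'
      · exact h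
    · intro hx
      have hxF : x ∈ FJ φ Finset.univ := ⟨hx.1, hx.2.1, hx.2.2.1, fun i hi =>
        absurd (Finset.mem_univ i) hi⟩
      rw [hmem]
      refine ⟨FJ_sub φ bad hx, fun y hy => (hx0m y hy).trans ?_⟩
      rw [hex x hxF]
      have e2 : ∑ i, (φ x).1 i * g x0 = g x0 := by rw [← Finset.sum_mul, hx.2.2.1, one_mul]
      rw [← e2]
      apply le_of_eq
      refine Finset.sum_congr rfl (fun i _ => ?_)
      by_cases hi : i ∈ J
      · have : g (ev φ i) = g x0 := by
          rw [hJ] at hi; simpa using hi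
        rw [this]
      · rw [hx.2.2.2 i hi]; simp
  refine ⟨J, ?_, hQ⟩
  by_contra hJe
  rw [Finset.not_nonempty_iff_eq_empty] at hJe
  rw [hQ, hJe] at hx0
  have := hx0.2.2.1
  rw [Finset.sum_eq_zero (fun i _ => hx0.2.2.2 i (by simp))] at this
  norm_num at this

include h4 in
/-- If there is a multicoloured clique then there is a bounded face outside of the simplex. -/
theorem exists_other_face [DecidableEq ι] [Fintype V] [DecidableEq V] {κ : Type} [Fintype κ]
    (ho : ∀ i j, i ≠ j → ∀ c, bad i o j c)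
    (L : κ → StrongDual ℝ E) (β : κ → ℝ) (hL : ∀ x, (∀ k, L k x ≤ β k) ↔ InP φ bad x)
    (c : ι → V) (hc : ∀ i j, i ≠ j → ¬ bad i (c i) j (c j)) :
    ∃ Q : Set E, Q.Nonempty ∧ IsExposed ℝ {x | InP φ bad x} Q ∧ Bornology.IsBounded Q ∧
      ∀ J : Finset ι, Q ≠ FJ φ J := by
  have hK : (4 : ℝ) ≤ Fintype.card ι := by exact_mod_cast h4
  have hK0 : (0 : ℝ) < Fintype.card ι := by linarith
  have hset : {x | ∀ k, L k x ≤ β k} = {x | InP φ bad x} := by
    ext x; exact hL x
  obtain ⟨i0⟩ : Nonempty ι := Fintype.card_pos_iff.1 (by omega)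
  -- the lineality space is trivial
  have hker : ∀ x, (∀ k, L k x = 0) → x = 0 := by
    intro r hr
    have hray : ∀ t : ℝ, InP φ bad (ev φ i0 + t • r) := by
      intro t
      rw [← hL]
      intro k
      rw [map_add, map_smul, hr k, smul_zero, add_zero]
      exact (hL _).2 (FJ_sub φ bad ((ev_mem φ (J := Finset.univ) i0).2 (Finset.mem_univ _))) k
    have hlin : ∀ a b c : ℝ, (∀ t : ℝ, a + t * b ≤ c) → b = 0 := by
      intro a b c h
      by_contra hb
      have := h ((c - a + 1) / b)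
      rw [div_mul_cancel₀ _ hb] at this
      linarith
    have h1 : ∀ i c, (φ r).2 i c = (φ r).1 i := by
      intro i c
      have := hlin ((φ (ev φ i0)).2 i c - (φ (ev φ i0)).1 i) ((φ r).2 i c - (φ r).1 i) 0
        (fun t => by
          have := (hray t).2.1 i c
          simp only [map_add, map_smul, Prod.fst_add, Prod.snd_add, Prod.smul_fst, Prod.smul_snd,
            Pi.add_apply, Pi.smul_apply, smul_eq_mul] at this
          linarith)
      linarith
    have h2 := alg_zero h4 o (φ r).2 (fun i j l hij hli hlj c' c'' => by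
      refine hlin ((φ (ev φ i0)).2 i o + (φ (ev φ i0)).2 j c' +
        ((Fintype.card ι : ℝ) - 2) * (φ (ev φ i0)).2 l c'') _ 0 (fun t => ?_)
      have := (hray t).2.2 i j l hij hli hlj o c' c'' (ho i j hij c')
      simp only [map_add, map_smul, Prod.fst_add, Prod.snd_add, Prod.smul_fst, Prod.smul_snd,
            Pi.add_apply, Pi.smul_apply, smul_eq_mul] at this
      linarith)
    apply φ.injective
    rw [map_zero]
    refine Prod.ext ?_ ?_
    · funext i
      rw [← h1 i o, h2]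
      rfl
    · funext i c
      exact h2 i c
  -- the functional
  set g : StrongDual ℝ E := ∑ i, fy φ i (c i) with hg
  have hgx : ∀ x, g x = ∑ i, (φ x).2 i (c i) := by
    intro x; rw [hg]; simp [fy_apply]
  have hgle : ∀ x ∈ {x | ∀ k, L k x ≤ β k}, g x ≤ 1 := by
    intro x hx
    rw [hset] at hx
    rw [hgx, ← hx.1]
    exact Finset.sum_le_sum (fun i _ => hx.2.1 i (c i))
  -- the special point
  set x₀ : E := φ.symm ((fun _ => 1 / (Fintype.card ι : ℝ)),
    (fun i c' => if c' = c i then 1 / (Fintype.card ι : ℝ) else -1)) with hx₀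
  have hφ : φ x₀ = ((fun _ => 1 / (Fintype.card ι : ℝ)),
    (fun i c' => if c' = c i then 1 / (Fintype.card ι : ℝ) else -1)) := by rw [hx₀]; simp
  have hcard1 : 1 / (Fintype.card ι : ℝ) ≤ 1 / 4 :=
    one_div_le_one_div_of_le (by norm_num) hK
  have hcard0 : 0 < 1 / (Fintype.card ι : ℝ) := by positivity
  have hyle : ∀ i c', (φ x₀).2 i c' ≤ 1 / (Fintype.card ι : ℝ) := by
    intro i c'
    rw [hφ]
    show (if c' = c i then 1 / (Fintype.card ι : ℝ) else -1) ≤ _
    split_ifs <;> linarith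
  have hx₀P : InP φ bad x₀ := by
    refine ⟨?_, fun i c' => ?_, fun i j l hij hli hlj c1 c2 c3 hb => ?_⟩
    · rw [hφ]
      show ∑ _i : ι, 1 / (Fintype.card ι : ℝ) = 1
      rw [Finset.sum_const, Finset.card_univ, nsmul_eq_mul]; field_simp
    · refine (hyle i c').trans (le_of_eq ?_)
      rw [hφ]
    · have e1 : (φ x₀).2 i c1 + (φ x₀).2 j c2 ≤ 1 / (Fintype.card ι : ℝ) - 1 := by
        by_cases h1 : c1 = c i
        · by_cases h2 : c2 = c j
          · rw [h1, h2] at hb
            exact absurd hb (hc i j hij)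
          · have : (φ x₀).2 j c2 = -1 := by rw [hφ]; exact if_neg h2
            have := hyle i c1
            linarith
        · have : (φ x₀).2 i c1 = -1 := by rw [hφ]; exact if_neg h1
          have := hyle j c2
          linarith
      have e2 : ((Fintype.card ι : ℝ) - 2) * (φ x₀).2 l c3 ≤
          ((Fintype.card ι : ℝ) - 2) * (1 / (Fintype.card ι : ℝ)) :=
        mul_le_mul_of_nonneg_left (hyle l c3) (by linarith)
      have e3 : ((Fintype.card ι : ℝ) - 2) * (1 / (Fintype.card ι : ℝ)) =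
          1 - 2 * (1 / (Fintype.card ι : ℝ)) := by field_simp
      linarith
  have hgx₀ : g x₀ = 1 := by
    rw [hgx, hφ]
    show ∑ i : ι, (if c i = c i then 1 / (Fintype.card ι : ℝ) else -1) = 1
    simp only [if_true]
    rw [Finset.sum_const, Finset.card_univ, nsmul_eq_mul]; field_simp
  -- choose `ε`
  set A := ∑ k, β k - ∑ k, L k x₀ with hA
  have hA0 : 0 ≤ A := sub_nonneg.2 (Finset.sum_le_sum (fun k _ => (hL x₀).2 hx₀P k))
  obtain ⟨Q, hQ1, hQ2, hQ3, hQ4⟩ := exists_bounded_face L β hker g 1 hgle x₀ ((hL x₀).2 hx₀P)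
    (1 / (A + 1)) (by positivity)
  rw [hset] at hQ2
  refine ⟨Q, hQ1, hQ2, hQ3, fun J hJ => ?_⟩
  obtain ⟨x, hx⟩ := hQ1
  have h5 := hQ4 x hx
  rw [hJ] at hx
  have h6 : g x = 0 := by
    rw [hgx]; exact Finset.sum_eq_zero (fun i _ => hx.1 i (c i))
  have h7 : ∑ k, L k x ≤ ∑ k, β k :=
    Finset.sum_le_sum (fun k _ => (hL x).2 (FJ_sub φ bad hx) k)
  rw [hgx₀, h6] at h5
  have h8 : 1 / (A + 1) * (∑ k, L k x - ∑ k, L k x₀) ≤ 1 / (A + 1) * A :=
    mul_le_mul_of_nonneg_left (by rw [hA]; linarith) (by positivity)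
  have h9 : 1 / (A + 1) * A < 1 := by
    rw [one_div, inv_mul_lt_iff₀ (by linarith)]; linarith
  linarith [mul_sub (1 / (A + 1)) (∑ k, L k x) (∑ k, L k x₀)]

omit [FiniteDimensional ℝ E] in
/-- The polyhedron is unbounded. -/
theorem unbounded [DecidableEq ι] (i0 : ι) (o : V) : ¬ Bornology.IsBounded {x : E | InP φ bad x} := by
  intro h
  have hr : InRec φ bad (φ.symm (0, fun _ _ => -1)) := by
    unfold InRec
    simp only [LinearEquiv.apply_symm_apply]
    refine ⟨by simp, fun i c => by simp, fun i j l hij hli hlj _ _ _ _ => ?_⟩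
    have : (2 : ℝ) ≤ Fintype.card ι := by
      have : 1 < Fintype.card ι := Fintype.one_lt_card_iff.2 ⟨i, j, hij⟩
      exact_mod_cast this
    linarith
  have := eq_zero_of_ray h (x := ev φ i0) (r := φ.symm (0, fun _ _ => -1)) (fun t ht =>
    (FJ_sub φ bad ((ev_mem φ (J := Finset.univ) i0).2 (Finset.mem_univ _))).add_rec φ bad hr ht)
  rw [LinearEquiv.map_eq_zero_iff] at this
  have := congrFun (congrFun (congrArg Prod.snd this) i0) o
  simp at this

include h4 ho in
/-- The polyhedron has a vertex. -/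
theorem pointed [DecidableEq ι] [Fintype V] :
    (Set.extremePoints ℝ {x : E | InP φ bad x}).Nonempty := by
  obtain ⟨i0⟩ : Nonempty ι := Fintype.card_pos_iff.1 (by omega)
  obtain ⟨h1, h2, h3⟩ := FJ_face φ bad h4 o ho {i0} (Finset.singleton_nonempty i0)
  have h5 : FJ φ {i0} = {ev φ i0} := by
    ext x
    rw [mem_singleton_iff]
    constructor
    · rintro ⟨e1, e2, e3, e4⟩
      apply φ.injective
      rw [ev, LinearEquiv.apply_symm_apply]
      have e5 : (φ x).1 i0 = 1 := by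
        rw [← e3]
        symm
        exact Finset.sum_eq_single i0 (fun j _ hj => e4 j (by simpa using hj))
          (fun h => absurd (Finset.mem_univ _) h)
      refine Prod.ext ?_ ?_
      · funext j
        by_cases hj : j = i0
        · subst hj; rw [e5]; simp
        · rw [e4 j (by simpa using hj)]; simp [hj]
      · funext j c; exact e1 j c
    · rintro rfl
      exact (ev_mem φ i0).2 (Finset.mem_singleton_self _)
  rw [h5] at h2
  exact ⟨ev φ i0, isExtreme_singleton.1 h2.isExtreme⟩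

/-- The set of bounded faces. -/
def bddFaces (P : Set E) : Set (Set E) :=
  {F | F.Nonempty ∧ IsExposed ℝ P F ∧ Bornology.IsBounded F}

omit [FiniteDimensional ℝ E] in
theorem ncard_FJ [DecidableEq ι] :
    (FJ (E := E) φ '' {J : Finset ι | J.Nonempty}).ncard = 2 ^ Fintype.card ι - 1 := by
  rw [Set.ncard_image_of_injective _ (FJ_injective φ)]
  have : {J : Finset ι | J.Nonempty} = ((Finset.univ.erase (∅ : Finset ι) : Finset (Finset ι)) :
      Set (Finset ι)) := by
    ext J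
    simp [Finset.nonempty_iff_ne_empty]
  rw [this, Set.ncard_coe_finset, Finset.card_erase_of_mem (Finset.mem_univ _), Finset.card_univ,
    Fintype.card_finset]

include h4 ho in
theorem ncard_no_clique [DecidableEq ι] [Fintype V]
    (hno : ∀ c : ι → V, ∃ i j, i ≠ j ∧ bad i (c i) j (c j)) :
    (bddFaces {x : E | InP φ bad x}).ncard = 2 ^ Fintype.card ι - 1 := by
  have : Nonempty V := ⟨o⟩
  rw [← ncard_FJ (E := E) φ]
  congr 1
  ext Q
  constructor
  · rintro ⟨h1, h2, h3⟩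
    obtain ⟨J, hJ, rfl⟩ := bounded_face_eq φ bad h4 hno h1 h2 h3
    exact ⟨J, hJ, rfl⟩
  · rintro ⟨J, hJ, rfl⟩
    exact FJ_face φ bad h4 o ho J hJ

include h4 ho in
theorem ncard_clique [DecidableEq ι] [Fintype V] [DecidableEq V] {κ : Type} [Fintype κ]
    (L : κ → StrongDual ℝ E) (β : κ → ℝ) (hL : ∀ x, (∀ k, L k x ≤ β k) ↔ InP φ bad x)
    (c : ι → V) (hc : ∀ i j, i ≠ j → ¬ bad i (c i) j (c j))
    (hfin : (bddFaces {x : E | InP φ bad x}).Finite) :
    2 ^ Fintype.card ι ≤ (bddFaces {x : E | InP φ bad x}).ncard := by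
  obtain ⟨Q, h1, h2, h3, h5⟩ := exists_other_face φ bad h4 o ho L β hL c hc
  have hsub : insert Q (FJ (E := E) φ '' {J : Finset ι | J.Nonempty}) ⊆
      bddFaces {x : E | InP φ bad x} := by
    rw [Set.insert_subset_iff]
    refine ⟨⟨h1, h2, h3⟩, ?_⟩
    rintro _ ⟨J, hJ, rfl⟩
    exact FJ_face φ bad h4 o ho J hJ
  have h6 := Set.ncard_le_ncard hsub hfin
  rw [Set.ncard_insert_of_notMem (by
    rintro ⟨J, hJ, hJ'⟩
    exact h5 J hJ'.symm) (hfin.subset ((Set.subset_insert _ _).trans hsub)),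
    ncard_FJ] at h6
  have h7 : 0 < 2 ^ Fintype.card ι := by positivity
  omega

end poly

end Pool.Agent.MP585ca9
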