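import Mathlib

/-!
# General facts on faces of polyhedra given by finitely many linear inequalities
-/

set_option autoImplicit false

namespace Pool.Agent.MP585ca9

open Set

section
variable {E : Type} [NormedAddCommGroup E] [NormedSpace ℝ E] {ι : Type} [Finite ι]

/-- An exposed face of a polyhedron is determined by its tight inequalities. -/
theorem face_eq_tight (L : ι → E → ℝ) (hadd : ∀ i x y, L i (x + y) = L i x + L i y)
    (hsmul : ∀ i (c : ℝ) x, L i (c • x) = c * L i x) (β : ι → ℝ) {F : Set E}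
    (hne : F.Nonempty) (hF : IsExposed ℝ {x | ∀ i, L i x ≤ β i} F) :
    F = {x | (∀ i, L i x ≤ β i) ∧ ∀ i, (∀ y ∈ F, L i y = β i) → L i x = β i} := by
  classical
  cases nonempty_fintype ι
  obtain ⟨l, hl⟩ := hF hne
  set P := {x | ∀ i, L i x ≤ β i} with hP
  have hFP : F ⊆ P := by rw [hl]; exact fun x hx => hx.1
  have hmax : ∀ x ∈ F, ∀ y ∈ P, l y ≤ l x := by
    intro x hx; rw [hl] at hx; exact hx.2
  apply Subset.antisymm
  · intro x hx
    exact ⟨hFP hx, fun i hi => hi x hx⟩
  · rintro x ⟨hxP, hxt⟩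
    obtain ⟨x0, hx0⟩ := hne
    -- a point of `F` for every inequality which is not tight
    have hch : ∀ i, ∃ z ∈ F, (¬ ∀ y ∈ F, L i y = β i) → L i z < β i := by
      intro i
      by_cases h : ∀ y ∈ F, L i y = β i
      · exact ⟨x0, hx0, fun h' => absurd h h'⟩
      · push Not at h
        obtain ⟨z, hz, hz'⟩ := h
        exact ⟨z, hz, fun _ => lt_of_le_of_ne (hFP hz i) hz'⟩
    choose z hzF hz using hch
    have hconvP : Convex ℝ P := by
      intro u hu v hv a b ha hb hab i
      rw [hadd, hsmul, hsmul]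
      have h1 := mul_le_mul_of_nonneg_left (hu i) ha
      have h2 := mul_le_mul_of_nonneg_left (hv i) hb
      calc _ ≤ a * β i + b * β i := add_le_add h1 h2
        _ = β i := by rw [← add_mul, hab, one_mul]
    have hconvF : Convex ℝ F := by
      rw [hl]
      intro u hu v hv a b ha hb hab
      refine ⟨hconvP hu.1 hv.1 ha hb hab, fun y hy => ?_⟩
      rw [map_add, map_smul, map_smul, smul_eq_mul, smul_eq_mul]
      have h1 := mul_le_mul_of_nonneg_left (hu.2 y hy) ha
      have h2 := mul_le_mul_of_nonneg_left (hv.2 y hy) hb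
      calc l y = a * l y + b * l y := by rw [← add_mul, hab, one_mul]
        _ ≤ _ := add_le_add h1 h2
    -- the average of all these points and of `x0`
    set n : ℝ := (Fintype.card ι : ℝ) + 1 with hn
    have hn0 : 0 < n := by positivity
    obtain ⟨w, hw⟩ : ∃ w : E, w = n⁻¹ • (x0 + ∑ i, z i) := ⟨_, rfl⟩
    have hLsum : ∀ i (s : Finset ι), L i (∑ j ∈ s, z j) = ∑ j ∈ s, L i (z j) := by
      intro i s
      induction s using Finset.induction_on with
      | empty =>
        have := hsmul i 0 x0
        simp only [zero_smul, zero_mul] at this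
        simpa using this
      | insert a s ha ih => rw [Finset.sum_insert ha, Finset.sum_insert ha, hadd, ih]
    have hLw : ∀ i, L i w = n⁻¹ * (L i x0 + ∑ j, L i (z j)) := by
      intro i; rw [hw, hsmul, hadd, hLsum]
    have hwlt : ∀ i, (¬ ∀ y ∈ F, L i y = β i) → L i w < β i := by
      intro i hi
      rw [hLw, inv_mul_lt_iff₀ hn0]
      have h1 : L i x0 ≤ β i := hFP hx0 i
      have h2 : ∑ j, L i (z j) < ∑ _j : ι, β i :=
        Finset.sum_lt_sum (fun j _ => hFP (hzF j) i) ⟨i, Finset.mem_univ _, hz i hi⟩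
      rw [Finset.sum_const, Finset.card_univ, nsmul_eq_mul] at h2
      rw [hn, add_mul]
      linarith
    have hweq : ∀ i, (∀ y ∈ F, L i y = β i) → L i w = β i := by
      intro i hi
      rw [hLw, hi x0 hx0, Finset.sum_congr rfl (fun j _ => hi (z j) (hzF j)), Finset.sum_const,
        Finset.card_univ, nsmul_eq_mul, hn]
      field_simp
      ring
    have hlw : l w = l x0 := by
      rw [hw, map_smul, map_add, map_sum, smul_eq_mul]
      have : ∀ j, l (z j) = l x0 := fun j =>
        le_antisymm (hmax x0 hx0 _ (hFP (hzF j))) (hmax _ (hzF j) _ (hFP hx0))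
      rw [Finset.sum_congr rfl (fun j _ => this j), Finset.sum_const, Finset.card_univ,
        nsmul_eq_mul, hn]
      field_simp
      ring
    -- moving from `w` away from `x` stays in `P`
    have hneg : ∀ i, L i (w - x) = L i w - L i x := by
      intro i
      have h1 := hadd i w ((-1 : ℝ) • x)
      rw [hsmul] at h1
      have h2 : w + (-1 : ℝ) • x = w - x := by rw [neg_one_smul, sub_eq_add_neg]
      rw [h2] at h1
      rw [h1]; ring
    have hex : ∃ t : ℝ, 0 < t ∧ w + t • (w - x) ∈ P := by
      have hti : ∀ i, ∃ t : ℝ, 0 < t ∧ ∀ s : ℝ, 0 ≤ s → s ≤ t → L i (w + s • (w - x)) ≤ β i := by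
        intro i
        by_cases hi : ∀ y ∈ F, L i y = β i
        · refine ⟨1, one_pos, fun s _ _ => ?_⟩
          rw [hadd, hsmul, hneg, hweq i hi, hxt i hi]; simp
        · have h1 := hwlt i hi
          refine ⟨(β i - L i w) / (|L i w - L i x| + 1), by
            have := abs_nonneg (L i w - L i x)
            exact div_pos (by linarith) (by linarith), fun s hs0 hs => ?_⟩
          rw [hadd, hsmul, hneg]
          have h2 : 0 < |L i w - L i x| + 1 := by
            have := abs_nonneg (L i w - L i x); linarith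
          rw [le_div_iff₀ h2] at hs
          have h3 : s * (L i w - L i x) ≤ s * (|L i w - L i x| + 1) :=
            mul_le_mul_of_nonneg_left (by
              have := le_abs_self (L i w - L i x); linarith) hs0
          linarith
      choose t ht0 ht using hti
      by_cases hι : Nonempty ι
      · refine ⟨Finset.univ.inf' Finset.univ_nonempty t, ?_, fun i => ?_⟩
        · rw [Finset.lt_inf'_iff]
          exact fun i _ => ht0 i
        · refine ht i _ ?_ (Finset.inf'_le _ (Finset.mem_univ i))
          exact ((Finset.lt_inf'_iff _).2 (fun i _ => ht0 i)).le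
      · exact ⟨1, one_pos, fun i => absurd ⟨i⟩ hι⟩
    obtain ⟨t, ht0, htP⟩ := hex
    have h1 := hmax x0 hx0 _ htP
    rw [map_add, map_smul, map_sub, smul_eq_mul, hlw] at h1
    have h2 : l x0 ≤ l x := by nlinarith
    rw [hl]
    exact ⟨hxP, fun y hy => (hmax x0 hx0 y hy).trans h2⟩

end

section
variable {E : Type} [NormedAddCommGroup E] [NormedSpace ℝ E] [FiniteDimensional ℝ E]
  {ι : Type} [Fintype ι]

/-- In a pointed polyhedron, a functional bounded from above becomes, after adding a positive
multiple of the sum of the inequality normals, one whose maximum is attained exactly on a bounded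
face. -/
theorem exists_bounded_face (L : ι → StrongDual ℝ E) (β : ι → ℝ)
    (hker : ∀ x, (∀ i, L i x = 0) → x = 0) (g : StrongDual ℝ E) (C : ℝ)
    (hg : ∀ x ∈ {x | ∀ i, L i x ≤ β i}, g x ≤ C) (x₀ : E) (hx₀ : ∀ i, L i x₀ ≤ β i)
    (ε : ℝ) (hε : 0 < ε) :
    ∃ F : Set E, F.Nonempty ∧ IsExposed ℝ {x | ∀ i, L i x ≤ β i} F ∧ Bornology.IsBounded F ∧
      ∀ x ∈ F, g x₀ + ε * ∑ i, L i x₀ ≤ g x + ε * ∑ i, L i x := by
  set P := {x | ∀ i, L i x ≤ β i} with hP
  set f : StrongDual ℝ E := g + ε • ∑ i, L i with hf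
  have hfx : ∀ x, f x = g x + ε * ∑ i, L i x := by
    intro x
    rw [hf]
    simp
  set S := {x | x ∈ P ∧ f x₀ ≤ f x} with hS
  have hclosed : IsClosed S := by
    have h1 : IsClosed P := by
      rw [hP, Set.ofPred_forall]
      exact isClosed_iInter (fun i => isClosed_le (L i).continuous continuous_const)
    exact h1.inter (isClosed_le continuous_const f.continuous)
  have hbdd : Bornology.IsBounded S := by
    -- all values `L i x` are bounded on `S`
    let Λ : E →ₗ[ℝ] (ι → ℝ) := LinearMap.pi (fun i => (L i).toLinearMap)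
    have hΛ : LinearMap.ker Λ = ⊥ := by
      rw [LinearMap.ker_eq_bot']
      intro x hx
      exact hker x (fun i => congrFun hx i)
    obtain ⟨K, -, hK⟩ := Λ.exists_antilipschitzWith hΛ
    have hsub : S ⊆ Λ ⁻¹' (Set.Icc (fun i => (f x₀ - C) / ε - ∑ j, |β j|) (fun i => β i)) := by
      intro x hx
      refine ⟨fun i => ?_, fun i => hx.1 i⟩
      show (f x₀ - C) / ε - ∑ j, |β j| ≤ L i x
      have h1 : f x₀ ≤ g x + ε * ∑ i, L i x := by rw [← hfx]; exact hx.2
      have h2 : g x ≤ C := hg x hx.1
      have h3 : (f x₀ - C) / ε ≤ ∑ i, L i x := by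
        rw [div_le_iff₀ hε]; linarith
      have h4 : ∑ j, L j x ≤ L i x + ∑ j, |β j| := by
        classical
        rw [← Finset.add_sum_erase Finset.univ (fun j => L j x) (Finset.mem_univ i),
          ← Finset.add_sum_erase Finset.univ (fun j => |β j|) (Finset.mem_univ i)]
        have : ∑ j ∈ Finset.univ.erase i, L j x ≤ ∑ j ∈ Finset.univ.erase i, |β j| :=
          Finset.sum_le_sum (fun j _ => (hx.1 j).trans (le_abs_self _))
        have := abs_nonneg (β i)
        linarith
      linarith
    have hpre := hK.isBounded_preimage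
      (isCompact_Icc (a := fun i : ι => (f x₀ - C) / ε - ∑ j, |β j|) (b := β)).isBounded
    exact hpre.subset hsub
  have hcomp : IsCompact S := Metric.isCompact_of_isClosed_isBounded hclosed hbdd
  obtain ⟨xm, hxm, hmax⟩ := hcomp.exists_isMaxOn ⟨x₀, hx₀, le_refl _⟩ f.continuous.continuousOn
  have hmax' : ∀ y ∈ P, f y ≤ f xm := by
    intro y hy
    by_cases h : f x₀ ≤ f y
    · exact hmax ⟨hy, h⟩
    · push Not at h
      exact h.le.trans hxm.2
  refine ⟨{x | x ∈ P ∧ ∀ y ∈ P, f y ≤ f x}, ⟨xm, hxm.1, hmax'⟩, fun _ => ⟨f, rfl⟩,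
    hbdd.subset ?_, ?_⟩
  · rintro x ⟨hx, hx'⟩
    exact ⟨hx, hx' x₀ hx₀⟩
  · rintro x ⟨hx, hx'⟩
    rw [← hfx, ← hfx]
    exact hx' x₀ hx₀

end

end Pool.Agent.MP585ca9
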