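import Pool.Agent.Work.MP_585ca9_lc.Build

/-!
# The Hasse diagram of the system of a multicoloured graph
-/

set_option autoImplicit false

namespace Pool.Agent.MP585ca9

open Set

/-! ### Faces and tight lists -/

theorem mem_tight {m d : ℕ} (A : Matrix (Fin m) (Fin d) ℚ) (b : Fin m → ℚ)
    (F : Set (Fin d → ℝ)) (i : Fin m) :
    (i : ℕ) ∈ tight A b F ↔ ∀ x ∈ F, ∑ j, (A i j : ℝ) * x j = (b i : ℝ) := by
  unfold tight
  rw [List.mem_map]
  constructor
  · rintro ⟨j, hj, hij⟩
    have : j = i := Fin.ext hij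
    subst this
    simpa using (List.mem_filter.1 hj).2
  · intro h
    exact ⟨i, List.mem_filter.2 ⟨List.mem_finRange i, by simpa using h⟩, rfl⟩

theorem tight_injOn {m d : ℕ} (A : Matrix (Fin m) (Fin d) ℚ) (b : Fin m → ℚ) :
    InjOn (tight A b) (bddFaces (polyhedron A b)) := by
  rintro F ⟨hF1, hF2, -⟩ G ⟨hG1, hG2, -⟩ h
  have hadd : ∀ i (x y : Fin d → ℝ), (∑ j, (A i j : ℝ) * (x + y) j) =
      ∑ j, (A i j : ℝ) * x j + ∑ j, (A i j : ℝ) * y j := by
    intro i x y
    rw [← Finset.sum_add_distrib]
    exact Finset.sum_congr rfl (fun j _ => by rw [Pi.add_apply, mul_add])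
  have hsmul : ∀ i (c : ℝ) (x : Fin d → ℝ), (∑ j, (A i j : ℝ) * (c • x) j) =
      c * ∑ j, (A i j : ℝ) * x j := by
    intro i c x
    rw [Finset.mul_sum]
    exact Finset.sum_congr rfl (fun j _ => by rw [Pi.smul_apply, smul_eq_mul]; ring)
  have e1 := face_eq_tight (fun i (x : Fin d → ℝ) => ∑ j, (A i j : ℝ) * x j) hadd hsmul
    (fun i => (b i : ℝ)) hF1 hF2
  have e2 := face_eq_tight (fun i (x : Fin d → ℝ) => ∑ j, (A i j : ℝ) * x j) hadd hsmul
    (fun i => (b i : ℝ)) hG1 hG2
  have hiff : ∀ i, (∀ y ∈ F, ∑ j, (A i j : ℝ) * y j = (b i : ℝ)) ↔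
      (∀ y ∈ G, ∑ j, (A i j : ℝ) * y j = (b i : ℝ)) := by
    intro i
    rw [← mem_tight, ← mem_tight, h]
  rw [e1, e2]
  ext x
  simp only [Set.mem_ofPred_eq, hiff]

theorem IsHasse.length_eq {m d : ℕ} {A : Matrix (Fin m) (Fin d) ℚ} {b : Fin m → ℚ}
    {faces : List (List ℕ)} {covers : List (ℕ × ℕ)} (h : IsHasse A b faces covers) :
    (bddFaces (polyhedron A b)).Finite ∧ faces.length = (bddFaces (polyhedron A b)).ncard := by
  classical
  have himg : tight A b '' bddFaces (polyhedron A b) = ((faces.toFinset : Finset (List ℕ)) :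
      Set (List ℕ)) := by
    ext L
    rw [Finset.mem_coe, List.mem_toFinset, h.mem_faces]
    constructor
    · rintro ⟨F, hF, rfl⟩; exact ⟨⟨F, hF⟩, rfl⟩
    · rintro ⟨F, rfl⟩; exact ⟨F.1, F.2, rfl⟩
  have hinj := tight_injOn A b
  refine ⟨Set.Finite.of_finite_image (by rw [himg]; exact Finset.finite_toSet _) hinj, ?_⟩
  rw [← hinj.ncard_image, himg, Set.ncard_coe_finset, List.toFinset_card_of_nodup h.faces_nodup]

/-! ### The matrix of a list of rows -/

/-- The matrix. -/
def matA (rows : List (List ℚ × ℚ)) (d : ℕ) : Matrix (Fin rows.length) (Fin d) ℚ :=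
  fun i j => (rows.get i).1.getD j 0

/-- The right-hand side. -/
def vecb (rows : List (List ℚ × ℚ)) : Fin rows.length → ℚ := fun i => (rows.get i).2

theorem ofFn_matA (rows : List (List ℚ × ℚ)) (d : ℕ) (h : ∀ r ∈ rows, r.1.length = d) :
    List.ofFn (fun i => (List.ofFn (matA rows d i), vecb rows i)) = rows := by
  apply List.ext_getElem
  · simp
  · intro i h1 h2
    rw [List.getElem_ofFn]
    have h3 : (rows[i]).1.length = d := h _ (List.getElem_mem h2)
    refine Prod.ext ?_ rfl
    show List.ofFn (fun j : Fin d => (rows[i]).1.getD j 0) = (rows[i]).1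
    apply List.ext_getElem
    · simp [h3]
    · intro j h4 h5
      rw [List.getElem_ofFn, List.getD_eq_getElem _ _ h5]

theorem mem_polyhedron_iff (rows : List (List ℚ × ℚ)) (d : ℕ)
    (x : Fin d → ℝ) : x ∈ polyhedron (matA rows d) (vecb rows) ↔
      ∀ r ∈ rows.map (fun r => (r.1.map (fun q : ℚ => (q : ℝ)), (r.2 : ℝ))), rowOk r x := by
  have hc : ∀ (l : List ℚ) (j : Fin d), (l.map (fun q : ℚ => (q : ℝ))).getD j 0 =
      ((l.getD j 0 : ℚ) : ℝ) := by
    intro l j
    rw [List.getD_eq_getElem?_getD, List.getD_eq_getElem?_getD, List.getElem?_map]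
    cases l[(j : ℕ)]? <;> simp
  constructor
  · intro h r hr
    rw [List.mem_map] at hr
    obtain ⟨s, hs, rfl⟩ := hr
    obtain ⟨i, rfl⟩ := List.get_of_mem hs
    have := h i
    unfold rowOk
    simp only [hc]
    exact this
  · intro h i
    have := h _ (List.mem_map.2 ⟨rows.get i, List.get_mem rows i, rfl⟩)
    unfold rowOk at this
    simp only [hc] at this
    exact this

/-! ### The system of a multicoloured graph -/

section
variable (K N : ℕ) (bad : ℕ → ℕ → ℕ → ℕ → Bool)

/-- The rows over the rationals. -/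
def rowsQ : List (List ℚ × ℚ) := rowsG (0 : ℚ) 1 (-1) ((K : ℚ) - 2) K N bad

/-- The matrix. -/
def sysA : Matrix (Fin (rowsQ K N bad).length) (Fin (K + K * N)) ℚ :=
  matA (rowsQ K N bad) (K + K * N)

/-- The right-hand side. -/
def sysb : Fin (rowsQ K N bad).length → ℚ := vecb (rowsQ K N bad)

theorem polyhedron_sys : polyhedron (sysA K N bad) (sysb K N bad) =
    {x | InP (coord K N) (fun i c j c' => bad i c j c' = true) x} := by
  ext x
  rw [sysA, sysb, mem_polyhedron_iff, Set.mem_ofPred_eq, ← rows_iff, rowsQ, map_rowsG]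
  simp

variable (hK : 4 ≤ K) (o : Fin N) (ho : ∀ i j c, bad i o j c = true)

include hK ho in
theorem sys_pointed : (Set.extremePoints ℝ (polyhedron (sysA K N bad) (sysb K N bad))).Nonempty := by
  rw [polyhedron_sys]
  exact pointed (coord K N) (fun i c j c' => bad i c j c' = true) (by simpa using hK) o
    (fun i j _ c => ho i j c)

include hK in
theorem sys_unbounded (o : Fin N) :
    ¬ Bornology.IsBounded (polyhedron (sysA K N bad) (sysb K N bad)) := by
  rw [polyhedron_sys]
  exact unbounded (coord K N) (fun i c j c' => bad i c j c' = true) ⟨0, by omega⟩ o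

include hK ho in
theorem sys_ncard_no_clique
    (hno : ∀ c : Fin K → Fin N, ∃ i j : Fin K, i ≠ j ∧ bad i (c i) j (c j) = true) :
    (bddFaces (polyhedron (sysA K N bad) (sysb K N bad))).ncard = 2 ^ K - 1 := by
  rw [polyhedron_sys, ncard_no_clique (coord K N) (fun i c j c' => bad i c j c' = true)
    (by simpa using hK) o (fun i j _ c => ho i j c) hno, Fintype.card_fin]

include hK ho in
theorem sys_ncard_clique (c : Fin K → Fin N)
    (hc : ∀ i j : Fin K, i ≠ j → bad i (c i) j (c j) = false)
    (hfin : (bddFaces (polyhedron (sysA K N bad) (sysb K N bad))).Finite) :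
    2 ^ K ≤ (bddFaces (polyhedron (sysA K N bad) (sysb K N bad))).ncard := by
  -- the rows as continuous functionals
  let L : Fin (rowsQ K N bad).length → StrongDual ℝ (Fin (K + K * N) → ℝ) := fun i =>
    ∑ j, (sysA K N bad i j : ℝ) • ContinuousLinearMap.proj (R := ℝ) (φ := fun _ => ℝ) j
  have hL : ∀ x, (∀ k, L k x ≤ (sysb K N bad k : ℝ)) ↔
      InP (coord K N) (fun i c j c' => bad i c j c' = true) x := by
    intro x
    have h1 : x ∈ polyhedron (sysA K N bad) (sysb K N bad) ↔
      InP (coord K N) (fun i c j c' => bad i c j c' = true) x := by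
      rw [polyhedron_sys]; rfl
    rw [← h1]
    have h2 : ∀ k, L k x = ∑ j, (sysA K N bad k j : ℝ) * x j := by
      intro k
      show (∑ j, (sysA K N bad k j : ℝ) •
        ContinuousLinearMap.proj (R := ℝ) (φ := fun _ => ℝ) j) x = _
      simp
    exact forall_congr' (fun k => by rw [h2])
  rw [polyhedron_sys] at hfin ⊢
  have := ncard_clique (coord K N) (fun i c j c' => bad i c j c' = true)
    (by simpa using hK) o (fun i j _ c => ho i j c) L _ hL c (fun i j hij => by
      simp [hc i j hij]) hfin
  rwa [Fintype.card_fin] at this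

include hK ho in
/-- The decision rule: the number of faces in the Hasse diagram is `2 ^ K - 1` iff there is no
multicoloured clique. -/
theorem sys_length_iff {faces : List (List ℕ)} {covers : List (ℕ × ℕ)}
    (h : IsHasse (sysA K N bad) (sysb K N bad) faces covers) :
    faces.length + 1 = 2 ^ K ↔
      ¬ ∃ c : Fin K → Fin N, ∀ i j : Fin K, i ≠ j → bad i (c i) j (c j) = false := by
  obtain ⟨h1, h2⟩ := h.length_eq
  have hpos : 0 < 2 ^ K := by positivity
  constructor
  · rintro h3 ⟨c, hc⟩
    have := sys_ncard_clique K N bad hK o ho c hc h1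
    omega
  · intro h3
    push Not at h3
    have := sys_ncard_no_clique K N bad hK o ho (fun c => by
      obtain ⟨i, j, hij, hb⟩ := h3 c
      exact ⟨i, j, hij, by simpa using hb⟩)
    omega

end

/-! ### Lengths of codes -/

theorem length_encList_le {α : Type} (e : α → List Bool) (B : ℕ) : ∀ (l : List α),
    (∀ a ∈ l, (e a).length ≤ B) → (encList e l).length ≤ l.length * (B + 1) + 1 := by
  intro l
  induction l with
  | nil => intro _; simp [encList]
  | cons a l ih =>
    intro h
    have h1 := ih (fun x hx => h x (by simp [hx]))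
    have h2 := h a (by simp)
    simp only [encList, List.length_cons, List.length_append]
    rw [Nat.add_mul]
    omega

theorem length_le_encList {α : Type} (e : α → List Bool) (l : List α) :
    l.length ≤ (encList e l).length := by
  induction l with
  | nil => simp
  | cons a l ih => simp only [encList, List.length_cons, List.length_append]; omega

theorem length_encBit_le (b : Bool) : (encBit b).length ≤ 3 := by cases b <;> simp [encBit]

theorem length_encNat_le (n : ℕ) : (encNat n).length ≤ 4 * n + 1 := by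
  have h1 := length_encList_le encBit 3 n.bits (fun b _ => length_encBit_le b)
  have h2 : n.bits.length ≤ n := by
    rw [Nat.size_eq_bits_len, Nat.size_le]
    exact Nat.lt_two_pow_self
  unfold encNat
  omega

theorem tight_length_le {m d : ℕ} (A : Matrix (Fin m) (Fin d) ℚ) (b : Fin m → ℚ)
    (F : Set (Fin d → ℝ)) : (tight A b F).length ≤ m := by
  classical
  unfold tight
  rw [List.length_map]
  refine (List.length_filter_le _ _).trans ?_
  rw [List.length_finRange]

theorem tight_lt {m d : ℕ} (A : Matrix (Fin m) (Fin d) ℚ) (b : Fin m → ℚ)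
    (F : Set (Fin d → ℝ)) {i : ℕ} (hi : i ∈ tight A b F) : i < m := by
  classical
  unfold tight at hi
  rw [List.mem_map] at hi
  obtain ⟨j, -, rfl⟩ := hi
  exact j.2

/-- The code of the Hasse diagram is short if there are few faces. -/
theorem length_encHasse_le {m d : ℕ} {A : Matrix (Fin m) (Fin d) ℚ} {b : Fin m → ℚ}
    {faces : List (List ℕ)} {covers : List (ℕ × ℕ)} (h : IsHasse A b faces covers) {X : ℕ}
    (h2 : 2 ≤ X) (hm : m ≤ X) (hf : faces.length ≤ X) :
    (encHasse faces covers).length ≤ X ^ 10 := by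
  have hf1 : ∀ L ∈ faces, (encList encNat L).length ≤ X * (4 * X + 2) + 1 := by
    intro L hL
    obtain ⟨F, rfl⟩ := (h.mem_faces L).1 hL
    have h3 := length_encList_le encNat (4 * X + 1) (tight A b F.1) (fun i hi => by
      have := tight_lt A b F.1 hi
      have := length_encNat_le i
      omega)
    have h4 : (tight A b F.1).length ≤ X := (tight_length_le A b F.1).trans hm
    refine h3.trans ?_
    gcongr
  have hF := length_encList_le (encList encNat) _ faces hf1
  have hc1 : ∀ p ∈ covers, p.1 < faces.length ∧ p.2 < faces.length := by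
    rintro ⟨i, j⟩ hp
    obtain ⟨F, G, -, h3, h4⟩ := (h.mem_covers i j).1 hp
    exact ⟨(List.getElem?_eq_some_iff.1 h3).1, (List.getElem?_eq_some_iff.1 h4).1⟩
  have hc2 : covers.length ≤ X * X := by
    classical
    rw [← List.toFinset_card_of_nodup h.covers_nodup]
    have hsub : covers.toFinset ⊆ (Finset.range X) ×ˢ (Finset.range X) := by
      intro p hp
      rw [List.mem_toFinset] at hp
      have := hc1 p hp
      rw [Finset.mem_product, Finset.mem_range, Finset.mem_range]
      omega
    have := Finset.card_le_card hsub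
    rwa [Finset.card_product, Finset.card_range] at this
  have hC := length_encList_le (encPair encNat encNat) (8 * X + 3) covers (fun p hp => by
    have h3 := hc1 p hp
    have h4 := length_encNat_le p.1
    have h5 := length_encNat_le p.2
    simp only [encPair, List.length_cons, List.length_append]
    omega)
  have h5 : (encHasse faces covers).length ≤
      (X * (X * (4 * X + 2) + 1 + 1) + 1) + (X * X * (8 * X + 3 + 1) + 1) + 1 := by
    simp only [encHasse, encPair, List.length_cons, List.length_append]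
    have h6 : faces.length * (X * (4 * X + 2) + 1 + 1) ≤ X * (X * (4 * X + 2) + 1 + 1) :=
      Nat.mul_le_mul_right _ hf
    have h7 : covers.length * (8 * X + 3 + 1) ≤ X * X * (8 * X + 3 + 1) :=
      Nat.mul_le_mul_right _ hc2
    omega
  refine h5.trans ?_
  have h8 : 128 ≤ X ^ 7 := by
    calc 128 = 2 ^ 7 := by norm_num
      _ ≤ X ^ 7 := Nat.pow_le_pow_left h2 7
  have h9 : X ^ 10 = X ^ 7 * X ^ 3 := by rw [← pow_add]
  rw [h9]
  have h10 : 128 * X ^ 3 ≤ X ^ 7 * X ^ 3 := Nat.mul_le_mul_right _ h8
  have h11 : X * X ≤ X ^ 3 := by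
    calc X * X = X ^ 2 := by ring
      _ ≤ X ^ 3 := Nat.pow_le_pow_right (by omega) (by norm_num)
  have h12 : X ≤ X ^ 3 := by
    calc X = X ^ 1 := by ring
      _ ≤ X ^ 3 := Nat.pow_le_pow_right (by omega) (by norm_num)
  have h13 : (X * (X * (4 * X + 2) + 1 + 1) + 1) + (X * X * (8 * X + 3 + 1) + 1) + 1 =
      12 * X ^ 3 + 6 * (X * X) + 2 * X + 3 := by ring
  rw [h13]
  omega

end Pool.Agent.MP585ca9
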