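import Pool.Agent.Work.MP_585ca9_lc.Red

/-!
# A polynomial total time algorithm gives a fixed-parameter algorithm for the clique problem
-/

set_option autoImplicit false

namespace Pool.Agent.MP585ca9

open Pool.Agent.PT Turing

/-! ### Cliques and multicoloured cliques -/

open Classical in
/-- The adjacency matrix. -/
noncomputable def matG {n : ℕ} (G : SimpleGraph (Fin n)) : List (List Bool) :=
  List.ofFn (fun i => List.ofFn (fun j => decide (G.Adj i j)))

theorem length_matG {n : ℕ} (G : SimpleGraph (Fin n)) : (matG G).length = n := by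
  simp [matG]

theorem adjM_matG {n : ℕ} (G : SimpleGraph (Fin n)) (u v : ℕ) (hu : u < n) (hv : v < n) :
    adjM (matG G) u v = true ↔ G.Adj ⟨u, hu⟩ ⟨v, hv⟩ := by
  classical
  unfold adjM matG
  rw [List.getD_eq_getElem?_getD, List.getD_eq_getElem?_getD, List.getElem?_ofFn, dif_pos hu,
    Option.getD_some, List.getElem?_ofFn, dif_pos hv, Option.getD_some, decide_eq_true_iff]

theorem clique_iff {n k : ℕ} (G : SimpleGraph (Fin n)) (hk : k ≠ 0) :
    (∃ c : Fin (k + 3) → Fin (n + 1), ∀ i j : Fin (k + 3), i ≠ j →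
      badM k (matG G) i (c i) j (c j) = false) ↔ ∃ s : Finset (Fin n), G.IsNClique k s := by
  classical
  have hbad : ∀ i c j c' : ℕ, badM k (matG G) i c j c' = false ↔
      c < n ∧ c' < n ∧ (k ≤ i ∨ k ≤ j ∨ adjM (matG G) c c' = true) := by
    intro i c j c'
    unfold badM
    rw [length_matG]
    simp only [Bool.not_eq_false', Bool.and_eq_true, decide_eq_true_eq, Bool.or_eq_true]
    tauto
  constructor
  · rintro ⟨c, hc⟩
    have hlt : ∀ i : Fin (k + 3), (c i : ℕ) < n := by
      intro i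
      obtain ⟨j, hij⟩ : ∃ j : Fin (k + 3), i ≠ j := by
        by_cases h : i = ⟨0, by omega⟩
        · exact ⟨⟨1, by omega⟩, by rw [h]; simp⟩
        · exact ⟨_, h⟩
      exact ((hbad _ _ _ _).1 (hc i j hij)).1
    let u : Fin k → Fin n := fun i => ⟨c ⟨i, by omega⟩, hlt _⟩
    have hadj : ∀ i j : Fin k, i ≠ j → G.Adj (u i) (u j) := by
      intro i j hij
      have h := (hbad _ _ _ _).1 (hc ⟨i, by omega⟩ ⟨j, by omega⟩ (by
        intro h; exact hij (Fin.ext (by simpa [Fin.ext_iff] using h))))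
      rcases h.2.2 with h | h | h
      · exact absurd h (by simp)
      · exact absurd h (by simp)
      · exact (adjM_matG G _ _ _ _).1 h
    have hinj : Function.Injective u := by
      intro i j hij
      by_contra h
      have := hadj i j h
      rw [hij] at this
      exact G.loopless.irrefl _ this
    refine ⟨Finset.univ.image u, ?_⟩
    rw [SimpleGraph.isNClique_iff]
    constructor
    · intro x hx y hy hxy
      simp only [Finset.coe_image, Finset.coe_univ, Set.image_univ, Set.mem_range] at hx hy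
      obtain ⟨i, rfl⟩ := hx
      obtain ⟨j, rfl⟩ := hy
      exact hadj i j (fun h => hxy (by rw [h]))
    · rw [Finset.card_image_of_injective _ hinj, Finset.card_univ, Fintype.card_fin]
  · rintro ⟨s, hs⟩
    rw [SimpleGraph.isNClique_iff] at hs
    obtain ⟨hs1, hs2⟩ := hs
    let e : Fin k ≃ s := (Finset.equivFinOfCardEq hs2).symm
    let u : ℕ → Fin n := fun i => if h : i < k then (e ⟨i, h⟩ : Fin n)
      else (e ⟨0, by omega⟩ : Fin n)
    have hlt : ∀ i, ((u i : Fin n) : ℕ) < n := fun i => (u i).2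
    refine ⟨fun i => ⟨u i, by have := hlt i; omega⟩, fun i j hij => ?_⟩
    rw [hbad]
    refine ⟨hlt _, hlt _, ?_⟩
    by_cases hi : k ≤ (i : ℕ)
    · exact Or.inl hi
    · by_cases hj : k ≤ (j : ℕ)
      · exact Or.inr (Or.inl hj)
      · push Not at hi hj
        refine Or.inr (Or.inr ((adjM_matG G _ _ (hlt _) (hlt _)).2 ?_))
        show G.Adj (u i) (u j)
        have e1 : u i = (e ⟨i, hi⟩ : Fin n) := dif_pos hi
        have e2 : u j = (e ⟨j, hj⟩ : Fin n) := dif_pos hj
        rw [e1, e2]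
        refine hs1 (e ⟨i, hi⟩).2 (e ⟨j, hj⟩).2 (fun h => hij ?_)
        have := e.injective (Subtype.ext h)
        exact Fin.ext (by simpa [Fin.ext_iff] using this)

/-! ### Time bounds -/

theorem poly_le_pow (p : Polynomial ℕ) : ∃ q : ℕ, ∀ z, p.eval z ≤ (z + 2) ^ q := by
  induction p using Polynomial.induction_on' with
  | add p₁ p₂ h₁ h₂ =>
    obtain ⟨q₁, h₁⟩ := h₁
    obtain ⟨q₂, h₂⟩ := h₂
    refine ⟨q₁ + q₂ + 1, fun z => ?_⟩
    rw [Polynomial.eval_add]
    have e1 : (z + 2) ^ q₁ ≤ (z + 2) ^ (q₁ + q₂) := Nat.pow_le_pow_right (by omega) (by omega)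
    have e2 : (z + 2) ^ q₂ ≤ (z + 2) ^ (q₁ + q₂) := Nat.pow_le_pow_right (by omega) (by omega)
    calc _ ≤ (z + 2) ^ (q₁ + q₂) + (z + 2) ^ (q₁ + q₂) :=
          add_le_add ((h₁ z).trans e1) ((h₂ z).trans e2)
      _ = (z + 2) ^ (q₁ + q₂) * 2 := by ring
      _ ≤ (z + 2) ^ (q₁ + q₂) * (z + 2) := Nat.mul_le_mul_left _ (by omega)
      _ = _ := (pow_succ _ _).symm
  | monomial m a =>
    refine ⟨a + m, fun z => ?_⟩
    rw [Polynomial.eval_monomial, pow_add]
    have e1 : a ≤ (z + 2) ^ a :=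
      (Nat.lt_two_pow_self).le.trans (Nat.pow_le_pow_left (by omega) _)
    exact Nat.mul_le_mul e1 (Nat.pow_le_pow_left (by omega) _)

/-- The answer computed with a clocked simulation `R` of the polyhedral algorithm. -/
def answer (R : ℕ × List Bool → Option (List Bool)) (q : ℕ)
    (p : (ℕ × List (List Bool)) × ℕ) : Bool :=
  if p.1.1 = 0 then true else
    ((R (((redStr p.1).length + 8 * p.2 + 2) ^ (11 * q), redStr p.1)).map
      (fun y => decide ((parse y).hd.toL.length + 1 ≠ 8 * p.2))).getD true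

theorem ptf_answer {R : ℕ × List Bool → Option (List Bool)} (hR : PTF R) (q : ℕ) :
    PTF (answer R q) := by
  have h1 := ptf_redStr
  have h2 := ptf_parse
  unfold answer
  fun_prop

theorem parse_count (faces : List (List ℕ)) (covers : List (ℕ × ℕ)) :
    (parse (encHasse faces covers)).hd.toL.length = faces.length := by
  have h : encHasse faces covers = (Enc.enc (faces.map (fun L => L.map Nat.bits),
      covers.map (fun p => (p.1.bits, p.2.bits)))).enc := by
    unfold encHasse
    rw [encPair_eq (f := fun l : List (List ℕ) => l.map (fun L => L.map Nat.bits))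
      (f' := fun l : List (ℕ × ℕ) => l.map (fun p => (p.1.bits, p.2.bits)))
      (fun l => encList_eq (fun L => encList_eq encNat_eq L) l)
      (fun l => encList_eq (f := fun p : ℕ × ℕ => (p.1.bits, p.2.bits))
        (fun p => encPair_eq encNat_eq encNat_eq p) l)]
  rw [h, parse_enc]
  show (D.toL (Enc.enc (faces.map (fun L => L.map Nat.bits)))).length = _
  rw [D.toL_enc]
  simp

theorem rows_length_le (k n : ℕ) (bad : ℕ → ℕ → ℕ → ℕ → Bool) :
    (rowsQ (k + 3) (n + 1) bad).length ≤
      (encSystem (sysA (k + 3) (n + 1) bad) (sysb (k + 3) (n + 1) bad)).length := by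
  have := length_le_encList (encPair (encList encRat) encRat)
    (List.ofFn (fun i => (List.ofFn (sysA (k + 3) (n + 1) bad i), sysb (k + 3) (n + 1) bad i)))
  rw [List.length_ofFn] at this
  have e : encSystem (sysA (k + 3) (n + 1) bad) (sysb (k + 3) (n + 1) bad) =
    true :: (encNat ((k + 3) + (k + 3) * (n + 1)) ++ encList (encPair (encList encRat) encRat)
    (List.ofFn (fun i => (List.ofFn (sysA (k + 3) (n + 1) bad i), sysb (k + 3) (n + 1) bad i)))) :=
      rfl
  rw [e, List.length_cons, List.length_append]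
  omega

theorem outputs_mono {M : TM2ComputableAux Bool Bool} {x y : List Bool} {t t' : ℕ}
    (h : Outputs M x y t) (htt' : t ≤ t') : Outputs M x y t' := by
  obtain ⟨⟨h1, h2⟩⟩ := h
  exact ⟨⟨h1, h2.trans htt'⟩⟩

open Classical in
theorem answer_correct {M : TM2ComputableAux Bool Bool} {p : Polynomial ℕ} {q : ℕ}
    (hq : ∀ z, p.eval z ≤ (z + 2) ^ q)
    (hM : ∀ (m d : ℕ) (A : Matrix (Fin m) (Fin d) ℚ) (b : Fin m → ℚ),
      (Set.extremePoints ℝ (polyhedron A b)).Nonempty → ¬ Bornology.IsBounded (polyhedron A b) →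
      ∃ faces covers, IsHasse A b faces covers ∧
        Outputs M (encSystem A b) (encHasse faces covers)
          (p.eval ((encSystem A b).length + (encHasse faces covers).length)))
    {R : ℕ × List Bool → Option (List Bool)}
    (hR : ∀ T x y, R (T, x) = some y ↔ Outputs M x y T)
    {n : ℕ} (G : SimpleGraph (Fin n)) (k : ℕ) :
    answer R q ((k, matG G), 2 ^ k) = decide (∃ s : Finset (Fin n), G.IsNClique k s) := by
  unfold answer
  by_cases hk : k = 0
  · subst hk
    rw [if_pos rfl]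
    symm
    rw [decide_eq_true_iff]
    exact ⟨∅, by simp [SimpleGraph.isNClique_iff]⟩
  rw [if_neg hk]
  -- the polyhedral instance
  obtain ⟨faces, covers, h1, h2⟩ := hM _ _ (sysA (k + 3) (n + 1) (badM k (matG G)))
    (sysb (k + 3) (n + 1) (badM k (matG G)))
    (sys_pointed _ _ _ (by omega) ⟨n, by omega⟩ (fun i j c => by
      unfold badM; rw [length_matG]; simp))
    (sys_unbounded _ _ _ (by omega) ⟨n, by omega⟩)
  have hlen := sys_length_iff _ _ _ (by omega) ⟨n, by omega⟩ (fun i j c => by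
      unfold badM; rw [length_matG]; simp) h1
  rw [clique_iff G hk] at hlen
  have hred : redStr (k, matG G) = encSystem (sysA (k + 3) (n + 1) (badM k (matG G)))
      (sysb (k + 3) (n + 1) (badM k (matG G))) := by
    rw [encSystem_sys, redStr, length_matG]
  rw [← hred] at h2
  have h8 : 2 ^ (k + 3) = 8 * 2 ^ k := by rw [pow_add]; ring
  -- the clocked run
  generalize hT : ((redStr (k, matG G)).length + 8 * 2 ^ k + 2) ^ (11 * q) = T
  cases hRT : R (T, redStr (k, matG G)) with
  | none =>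
    show true = _
    symm
    rw [decide_eq_true_iff]
    by_contra hno
    have hcount := hlen.2 hno
    -- then the algorithm is fast
    set X := (redStr (k, matG G)).length + 8 * 2 ^ k + 2 with hX
    have hlenH : (encHasse faces covers).length ≤ X ^ 10 := by
      refine length_encHasse_le h1 (by omega) ?_ (by omega)
      have := rows_length_le k n (badM k (matG G))
      rw [← hred] at this
      omega
    have h3 : (redStr (k, matG G)).length + (encHasse faces covers).length + 2 ≤ X ^ 11 := by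
      have h5 : X ≤ X ^ 10 := Nat.le_self_pow (by norm_num) X
      have h6 : X ^ 11 = X ^ 10 * X := pow_succ _ _
      have h7 : X ^ 10 * 2 ≤ X ^ 10 * X := Nat.mul_le_mul_left _ (by omega)
      omega
    have h4 : p.eval ((redStr (k, matG G)).length + (encHasse faces covers).length) ≤ T := by
      refine (hq _).trans ((Nat.pow_le_pow_left h3 q).trans (le_of_eq ?_))
      rw [← pow_mul, ← hT]
    have h5 := (hR T _ _).2 (outputs_mono h2 h4)
    rw [hRT] at h5
    cases h5
  | some y =>
    -- the output is the Hasse diagram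
    have h3 : y = encHasse faces covers := by
      have e1 := (hR T _ _).1 hRT
      set t := p.eval ((redStr (k, matG G)).length + (encHasse faces covers).length)
      have e2 := (hR (max T t) _ _).2 (outputs_mono e1 (le_max_left T t))
      have e3 := (hR (max T t) _ _).2 (outputs_mono h2 (le_max_right T t))
      rw [e2] at e3
      exact Option.some.inj e3
    show decide ((parse y).hd.toL.length + 1 ≠ 8 * 2 ^ k) = _
    rw [h3, parse_count]
    rw [h8] at hlen
    rw [decide_eq_decide]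
    constructor
    · intro h; by_contra h'; exact h (hlen.2 h')
    · intro h h'; exact hlen.1 h' h

theorem encClique_eq {n : ℕ} (G : SimpleGraph (Fin n)) (k : ℕ) :
    encClique G k = (Enc.enc (k, matG G)).enc := by
  unfold encClique matG
  rw [encPair_eq (f := fun k : ℕ => k) (f' := fun l : List (List Bool) => l) encUnary_eq
    (fun l => by
      rw [encList_eq (f := fun l : List Bool => l) (fun l => by
        rw [encList_eq (f := fun b : Bool => b) encBit_eq]; simp)]
      simp)]

theorem sz_matG_le {n : ℕ} (G : SimpleGraph (Fin n)) (k : ℕ) :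
    sz (k, matG G) ≤ 10 * 2 ^ k * (n + 1) ^ 2 := by
  classical
  have h1 : ∀ (l : List Bool), sz l ≤ 4 * l.length + 1 := by
    intro l
    induction l with
    | nil => simp [sz_nil]
    | cons b l ih =>
      rw [sz_cons, List.length_cons]
      have := sz_bool b
      omega
  have h2 : ∀ (l : List (List Bool)), (∀ r ∈ l, r.length = n) →
      sz l ≤ l.length * (4 * n + 2) + 1 := by
    intro l
    induction l with
    | nil => intro _; simp [sz_nil]
    | cons r l ih =>
      intro h
      rw [sz_cons, List.length_cons]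
      have e1 := ih (fun r hr => h r (by simp [hr]))
      have e2 := h1 r
      rw [h r (by simp)] at e2
      rw [Nat.add_mul]
      omega
  have h3 := h2 (matG G) (fun r hr => by
    unfold matG at hr
    rw [List.mem_ofFn] at hr
    obtain ⟨i, rfl⟩ := hr
    simp)
  rw [length_matG] at h3
  rw [sz_pair, sz_nat]
  have h4 : k + 1 ≤ 2 ^ k := Nat.lt_two_pow_self
  have h5 : n * (4 * n + 2) + 1 ≤ 4 * (n + 1) ^ 2 := by nlinarith
  have h6 : 1 ≤ (n + 1) ^ 2 := Nat.one_le_pow _ _ (by omega)
  have h7 : 2 * k + 2 ≤ 2 * 2 ^ k * (n + 1) ^ 2 := by nlinarith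
  have h8 : 4 * (n + 1) ^ 2 ≤ 4 * 2 ^ k * (n + 1) ^ 2 := by
    have : 1 ≤ 2 ^ k := Nat.one_le_two_pow
    nlinarith
  have h9 : 10 * 2 ^ k * (n + 1) ^ 2 = 2 * 2 ^ k * (n + 1) ^ 2 + 4 * 2 ^ k * (n + 1) ^ 2 +
    4 * 2 ^ k * (n + 1) ^ 2 := by ring
  omega

/-- **Main theorem.** -/
theorem main (h : HasPolyTotalTimeAlgorithm) : CliqueFPT := by
  classical
  obtain ⟨M, p, hM⟩ := h
  obtain ⟨q, hq⟩ := poly_le_pow p
  obtain ⟨R, hR1, hR2⟩ := clock M.tm M.inputAlphabet M.outputAlphabet
  obtain ⟨B, ⟨r, hB⟩, hT⟩ := TimeF.fpt (ptf_answer hR1 q) (e := fun a => a.1) PTF.fst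
  obtain ⟨M', hM'⟩ := hT.tm2
  refine ⟨M', 32 ^ (r + 1), fun n k G => ?_⟩
  have h1 := hM' (k, matG G)
  beta_reduce at h1
  rw [answer_correct hq hM (fun T x y => hR2 T x y) G k] at h1
  unfold Outputs
  rw [encClique_eq, encBit_eq]
  refine outputs_mono (M := M') h1 ?_
  have h2 := hB ((k, matG G), 2 ^ k)
  have h3 := sz_matG_le G k
  have h4 : sz ((k, matG G), 2 ^ k) + 2 ≤ 16 * 2 ^ k * (n + 1) ^ 2 := by
    rw [sz_pair, sz_nat]
    have h5 : 1 ≤ 2 ^ k := Nat.one_le_two_pow
    have h6 : 1 ≤ (n + 1) ^ 2 := Nat.one_le_pow _ _ (by omega)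
    have h7 : 2 ^ k ≤ 2 ^ k * (n + 1) ^ 2 := Nat.le_mul_of_pos_right _ (by omega)
    nlinarith
  have h5 : B ((k, matG G), 2 ^ k) + 1 ≤ (32 * 2 ^ k * (n + 1) ^ 2) ^ (r + 1) := by
    have e1 : B ((k, matG G), 2 ^ k) ≤ (16 * 2 ^ k * (n + 1) ^ 2) ^ r :=
      h2.trans (Nat.pow_le_pow_left h4 r)
    have e2 : 1 ≤ 16 * 2 ^ k * (n + 1) ^ 2 := by
      have : 1 ≤ 2 ^ k := Nat.one_le_two_pow
      have : 1 ≤ (n + 1) ^ 2 := Nat.one_le_pow _ _ (by omega)
      nlinarith
    have e3 : (16 * 2 ^ k * (n + 1) ^ 2) ^ r ≤ (32 * 2 ^ k * (n + 1) ^ 2) ^ r :=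
      Nat.pow_le_pow_left (by nlinarith) r
    have e4 : 1 ≤ (32 * 2 ^ k * (n + 1) ^ 2) ^ r := Nat.one_le_pow _ _ (by nlinarith)
    have e5 : 2 ≤ 32 * 2 ^ k * (n + 1) ^ 2 := by nlinarith
    calc B ((k, matG G), 2 ^ k) + 1 ≤ (32 * 2 ^ k * (n + 1) ^ 2) ^ r +
          (32 * 2 ^ k * (n + 1) ^ 2) ^ r := by omega
      _ = (32 * 2 ^ k * (n + 1) ^ 2) ^ r * 2 := by ring
      _ ≤ (32 * 2 ^ k * (n + 1) ^ 2) ^ r * (32 * 2 ^ k * (n + 1) ^ 2) :=
          Nat.mul_le_mul_left _ e5
      _ = _ := (pow_succ _ _).symm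
  refine h5.trans ?_
  rw [mul_pow, mul_pow, ← pow_mul, ← pow_mul]
  have e6 : 2 * (r + 1) ≤ 32 ^ (r + 1) := by
    have e7 : r + 1 < 2 ^ (r + 1) := Nat.lt_two_pow_self
    have e8 : 32 ^ (r + 1) = 2 ^ (r + 1) * 16 ^ (r + 1) := by rw [← mul_pow]; norm_num
    have e9 : 2 ≤ 16 ^ (r + 1) := by
      calc 2 ≤ 16 ^ 1 := by norm_num
        _ ≤ 16 ^ (r + 1) := Nat.pow_le_pow_right (by norm_num) (by omega)
    rw [e8]
    nlinarith
  have e10 : 2 ^ (k * (r + 1)) ≤ 2 ^ (32 ^ (r + 1) * k) := by
    refine Nat.pow_le_pow_right (by norm_num) ?_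
    rw [mul_comm]
    exact Nat.mul_le_mul_right _ (by omega)
  have e11 : (n + 1) ^ (2 * (r + 1)) ≤ (n + 1) ^ (32 ^ (r + 1)) :=
    Nat.pow_le_pow_right (by omega) e6
  exact Nat.mul_le_mul (Nat.mul_le_mul_left _ e10) e11

end Pool.Agent.MP585ca9
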