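import Pool.Agent.Work.MP_585ca9_lc.Hasse
import Pool.Agent.Work.PT.Serial
import Pool.Agent.Work.PT.Fpt
import Pool.Agent.Work.PT.Clock
import Pool.Agent.Work.PT.Bridge

/-!
# The reduction from the clique problem is computable in polynomial time
-/

set_option autoImplicit false

namespace Pool.Agent.MP585ca9

open Pool.Agent.PT

/-! ### Codes -/

theorem encBit_eq (b : Bool) : encBit b = (Enc.enc b).enc := by cases b <;> rfl

theorem encPair_eq {α β γ δ : Type} [Enc γ] [Enc δ] {e : α → List Bool} {e' : β → List Bool}
    {f : α → γ} {f' : β → δ} (h : ∀ a, e a = (Enc.enc (f a)).enc)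
    (h' : ∀ a, e' a = (Enc.enc (f' a)).enc) (p : α × β) :
    encPair e e' p = (Enc.enc (f p.1, f' p.2)).enc := by
  rw [encPair, h, h']; rfl

theorem encList_eq {α γ : Type} [Enc γ] {e : α → List Bool}
    {f : α → γ} (h : ∀ a, e a = (Enc.enc (f a)).enc) (l : List α) :
    encList e l = (Enc.enc (l.map f)).enc := by
  induction l with
  | nil => rfl
  | cons a l ih => rw [encList, h, ih]; rfl

theorem encNat_eq (n : ℕ) : encNat n = (Enc.enc n.bits).enc := by
  rw [encNat, encList_eq (f := fun b => b) encBit_eq]
  simp

theorem encUnary_eq (n : ℕ) : encUnary n = (Enc.enc n).enc := by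
  induction n with
  | zero => rfl
  | succ n ih => rw [encUnary, ih]; rfl

/-- Codes of rational numbers. -/
abbrev RatC : Type := (Bool × List Bool) × List Bool

/-- The code of a rational number. -/
def codeQ (q : ℚ) : RatC := ((decide (q.num < 0), q.num.natAbs.bits), q.den.bits)

theorem encRat_eq (q : ℚ) : encRat q = (Enc.enc (codeQ q)).enc := by
  unfold encRat codeQ
  refine encPair_eq (f := fun z : ℤ => (decide (z < 0), z.natAbs.bits)) (f' := Nat.bits)
    (fun z => ?_) encNat_eq _
  unfold encInt
  exact encPair_eq (f := fun b : Bool => b) (f' := Nat.bits) encBit_eq encNat_eq _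

/-- The code of the system of a multicoloured graph. -/
def sysCode (k n : ℕ) (bad : ℕ → ℕ → ℕ → ℕ → Bool) : List Bool × List (List RatC × RatC) :=
  (((k + 3) + (k + 3) * (n + 1)).bits,
    rowsG ((false, []), [true]) ((false, [true]), [true]) ((true, [true]), [true])
      ((false, (k + 1).bits), [true]) (k + 3) (n + 1) bad)

theorem codeQ_zero : codeQ 0 = ((false, []), [true]) := by simp [codeQ]
theorem codeQ_one : codeQ 1 = ((false, [true]), [true]) := by simp [codeQ]
theorem codeQ_neg_one : codeQ (-1) = ((true, [true]), [true]) := by simp [codeQ]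
theorem codeQ_nat (n : ℕ) : codeQ (n : ℚ) = ((false, n.bits), [true]) := by simp [codeQ]

theorem encSystem_sys (k n : ℕ) (bad : ℕ → ℕ → ℕ → ℕ → Bool) :
    encSystem (sysA (k + 3) (n + 1) bad) (sysb (k + 3) (n + 1) bad) =
      (Enc.enc (sysCode k n bad)).enc := by
  have key := ofFn_matA (rowsQ (k + 3) (n + 1) bad) ((k + 3) + (k + 3) * (n + 1))
    (fun r hr => length_of_mem_rowsG hr)
  have e0 : encSystem (sysA (k + 3) (n + 1) bad) (sysb (k + 3) (n + 1) bad) =
    encPair encNat (encList (encPair (encList encRat) encRat))
      ((k + 3) + (k + 3) * (n + 1), rowsQ (k + 3) (n + 1) bad) := by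
    unfold encSystem
    exact congrArg (fun l => encPair encNat (encList (encPair (encList encRat) encRat))
      ((k + 3) + (k + 3) * (n + 1), l)) key
  rw [e0]
  rw [encPair_eq (f := Nat.bits)
    (f' := fun l : List (List ℚ × ℚ) => l.map (fun r => (r.1.map codeQ, codeQ r.2)))
    encNat_eq (fun l => encList_eq (f := fun r : List ℚ × ℚ => (r.1.map codeQ, codeQ r.2))
      (fun r => encPair_eq (f := fun l : List ℚ => l.map codeQ) (f' := codeQ)
        (fun l => encList_eq encRat_eq l) encRat_eq r) l)]
  congr 2
  unfold sysCode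
  simp only [Prod.mk.injEq, true_and]
  rw [rowsQ, map_rowsG, codeQ_zero, codeQ_one, codeQ_neg_one]
  have : ((k + 3 : ℕ) : ℚ) - 2 = ((k + 1 : ℕ) : ℚ) := by push_cast; ring
  rw [this, codeQ_nat]

/-! ### Binary digits in polynomial time -/

/-- One step of the computation of the binary digits. -/
def bitStep (s : ℕ × List Bool) : ℕ × List Bool :=
  if s.1 = 0 then s else (s.1 / 2, decide (s.1 % 2 = 1) :: s.2)

theorem bits_rec (n : ℕ) (h : n ≠ 0) : n.bits = decide (n % 2 = 1) :: (n / 2).bits := by
  have h1 := Nat.mod_two_of_bodd n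
  have h2 : Nat.bit n.bodd (n / 2) = n := Nat.bit_bodd_div2 n
  have h3 := Nat.bits_append_bit (n / 2) n.bodd (fun h0 => by
    cases hb : n.bodd with
    | true => rfl
    | false => rw [hb] at h1; simp at h1; omega)
  rw [h2] at h3
  rw [h3]
  congr 1
  cases hb : n.bodd <;> rw [hb] at h1 <;> simp at h1 <;> simp [h1]

theorem bitStep_iterate (n : ℕ) : ∀ (j : ℕ) (out : List Bool), n ≤ j →
    bitStep^[j] (n, out) = (0, n.bits.reverse ++ out) := by
  induction n using Nat.strong_induction_on with
  | _ n ih =>
    intro j out hj
    by_cases h : n = 0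
    · subst h
      have : bitStep (0, out) = (0, out) := by simp [bitStep]
      rw [Function.iterate_fixed this]
      simp
    · obtain ⟨j, rfl⟩ : ∃ j', j = j' + 1 := ⟨j - 1, by omega⟩
      rw [Function.iterate_succ_apply]
      have e : bitStep (n, out) = (n / 2, decide (n % 2 = 1) :: out) := by
        simp [bitStep, h]
      rw [e, ih (n / 2) (by omega) j _ (by omega), bits_rec n h]
      simp

theorem ptf_bits : PTF (fun n : ℕ => n.bits) := by
  have hs : PTF bitStep := by
    unfold bitStep
    fun_prop
  have h := PTF.nat_iterate_add (n := fun n : ℕ => n) (init := fun n : ℕ => (n, ([] : List Bool)))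
    (step := fun p => bitStep p.2) (by fun_prop) (by fun_prop) (by fun_prop)
    (fun _ => 4) (PB.const 4) (fun a s => by
      obtain ⟨m, out⟩ := s
      show sz (bitStep (m, out)) ≤ sz (m, out) + 4
      unfold bitStep
      split_ifs with h0
      · omega
      · rw [sz_pair, sz_pair, sz_cons, sz_nat, sz_nat]
        have := sz_bool (decide ((m, out).1 % 2 = 1))
        simp only at this ⊢
        omega)
  refine ((PTF.snd.comp h).reverse).congr (fun n => ?_)
  show ((fun s => bitStep s)^[n] (n, [])).2.reverse = _
  have := bitStep_iterate n n [] (le_refl _)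
  change bitStep^[n] (n, []) = _ at this
  rw [this]
  simp

/-! ### The reduction -/

/-- Adjacency read off from the adjacency matrix. -/
def adjM (M : List (List Bool)) (u v : ℕ) : Bool := (M.getD u []).getD v false

/-- The non-adjacency relation of the multicoloured graph of `(k, M)`: colours `i < k` carry
copies of the graph, the colours `k, k + 1, k + 2` are adjacent to everything and the vertex
with index `M.length` of each colour is adjacent to nothing. -/
def badM (k : ℕ) (M : List (List Bool)) (i c j c' : ℕ) : Bool :=
  !(decide (c < M.length) && decide (c' < M.length) &&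
    (decide (k ≤ i) || decide (k ≤ j) || adjM M c c'))

/-- The input for the polyhedral algorithm. -/
def redStr (a : ℕ × List (List Bool)) : List Bool :=
  (Enc.enc (sysCode a.1 a.2.length (badM a.1 a.2))).enc

theorem ptf_redStr : PTF redStr := by
  have hb := ptf_bits
  refine ptf_ser ?_
  unfold sysCode rowsG tuples tri badM adjM
  fun_prop

end Pool.Agent.MP585ca9
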